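import Pool.Agent.Helper81.ZG.Count
import Pool.Agent.Helper94.ZE.ClusterU

/-!
# ZG: the cluster, uniform form
-/

set_option autoImplicit false

namespace Pool.Agent.Helper81.ZG

open Finset Pool.Agent.Helper18.ZE
open Pool.Agent.Helper94.ZE (exists_exp_bound cond_of)

/-- The product over the primes of `a b`. -/
theorem prod_le_of {a b g B E : ℕ} {L : ℝ} (ha : 0 < a) (hb : 0 < b) (hg : g ≠ 0) (hL : 1 ≤ L) (hEB : E ≤ B)
    (hN : (∏ p ∈ (a * b * g).primeFactors, p : ℕ) ≤ L ^ E) :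
    (∏ p ∈ (a * b).primeFactors, p : ℕ) ≤ L ^ B := by
  have h1 : (∏ p ∈ (a * b).primeFactors, p) ≤ ∏ p ∈ (a * b * g).primeFactors, p := by
    refine Finset.prod_le_prod_of_subset_of_one_le' (Nat.primeFactors_mono (Dvd.intro _ rfl) ?_) ?_
    · positivity
    · intro p hp _
      exact (Nat.prime_of_mem_primeFactors hp).one_lt.le
  have h2 : ((∏ p ∈ (a * b).primeFactors, p : ℕ) : ℝ) ≤ L ^ E := le_trans (by exact_mod_cast h1) hN
  exact h2.trans (pow_le_pow_right₀ hL hEB)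

/-- The uniform form, `K = 16 B`. -/
theorem exists_clusterU_of (hΩ : ∃ D : ℕ, ∀ (B : ℕ) (L : ℝ) (N : ℕ), 1 ≤ B → 1 ≤ L →
      ((B + 1 : ℕ) : ℝ) ^ (D * B) ≤ Real.log L → N ≠ 0 → (∏ p ∈ N.primeFactors, p : ℕ) ≤ L ^ B →
      ((16 * B : ℕ) : ℝ) ^ N.primeFactors.card ≤ L ^ (1 / 8 : ℝ)) :
    ∃ D : ℕ, ∀ (E B a b g Q : ℕ) (L : ℝ), 1 ≤ E → E ≤ B → 0 < a → 0 < b → g ≠ 0 → (a * b).Coprime g → g ≤ a + b →
    L = Real.log (a + b : ℕ) → E * L ≤ B * Real.log g → 1 ≤ L → ((B + 1 : ℕ) : ℝ) ^ (D * B) ≤ Real.log L →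
    (∏ p ∈ (a * b * g).primeFactors, p : ℕ) ≤ L ^ E →
    L ≤ 128 * B * Real.log L * Q → 64 * B * Real.log L * Q ≤ L →
    ∃ (Y : ℕ) (T : Finset (ℕ × ℕ)), 1 ≤ Y ∧
      Real.log Y ≤ Real.log (modulus g Q) - Real.log L / 2 ∧ Q ≤ T.card ^ 9 ∧
      (∀ x ∈ T, ∀ y ∈ T, x.1 = y.1 → x = y) ∧
      (∀ x ∈ T, x.1 < Q ∧ x.2.Prime ∧ x.2 ≤ Y ∧ 4 * Q < x.2 ∧ x.2.Coprime (a * b * g)) ∧
      ∀ x ∈ T, ∀ y ∈ T, (∀ p ∈ (a * b).primeFactors, box a b Q (16 * B) x.1 p = box a b Q (16 * B) y.1 p) ∧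
        theta a b Q x.1 x.2 ≡ theta a b Q y.1 y.2 [MOD modulus g Q] := by
  obtain ⟨x0, hC⟩ := Pool.Agent.Helper60.ZE.card_primes_el
  obtain ⟨D1, hΩ⟩ := hΩ
  obtain ⟨x1, hx1⟩ := exists_exp_bound
  refine ⟨D1 + x0 + ⌈x1⌉₊ + 4, ?_⟩
  intro E B a b g Q L hE hEB ha hb hg0 hg hgab hL hgL hL1 hD hN hQ1 hQ2
  have hB : 1 ≤ B := hE.trans hEB
  have hLpos : 0 < L := by linarith
  set D : ℕ := D1 + x0 + ⌈x1⌉₊ + 4 with hDdef
  have hB2 : (1 : ℝ) ≤ ((B + 1 : ℕ) : ℝ) := by exact_mod_cast Nat.le_add_left 1 B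
  -- `D ≤ (B + 1) ^ (D B)`
  have hDle : (D : ℝ) ≤ Real.log L := by
    have h1 : D ≤ (B + 1) ^ (D * B) := by
      calc D ≤ 2 ^ D := Nat.lt_two_pow_self.le
        _ ≤ (B + 1) ^ D := Nat.pow_le_pow_left (by omega) _
        _ ≤ (B + 1) ^ (D * B) := Nat.pow_le_pow_right (by omega) (Nat.le_mul_of_pos_right _ hB)
    have h2 : (D : ℝ) ≤ ((B + 1 : ℕ) : ℝ) ^ (D * B) := by exact_mod_cast h1
    linarith
  have hD1 : ((B + 1 : ℕ) : ℝ) ^ (D1 * B) ≤ Real.log L := by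
    refine le_trans (pow_le_pow_right₀ hB2 ?_) hD
    exact Nat.mul_le_mul_right _ (by omega)
  have hBsq : (B : ℝ) ^ 2 ≤ Real.log L := by
    refine le_trans ?_ hD
    calc (B : ℝ) ^ 2 ≤ ((B + 1 : ℕ) : ℝ) ^ 2 := by
          refine pow_le_pow_left₀ (by positivity) ?_ 2
          exact_mod_cast Nat.le_succ B
      _ ≤ ((B + 1 : ℕ) : ℝ) ^ (D * B) := pow_le_pow_right₀ hB2 (by nlinarith)
  have hlogL : Real.log L ≤ L := (Real.log_le_sub_one_of_pos hLpos).trans (by linarith)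
  have hDR : (D : ℝ) = D1 + x0 + ⌈x1⌉₊ + 4 := by
    rw [hDdef]
    push_cast
    ring
  have hD1' : (0 : ℝ) ≤ D1 := Nat.cast_nonneg _
  have hx0' : (0 : ℝ) ≤ x0 := Nat.cast_nonneg _
  have hx1' : (0 : ℝ) ≤ ⌈x1⌉₊ := Nat.cast_nonneg _
  have g4 : x1 ≤ Real.log L := by
    have := Nat.le_ceil x1
    linarith
  have g2 : (x0 : ℝ) ≤ L := by linarith
  have g1 : 16 ≤ L := by
    have h1 : (4 : ℝ) ≤ Real.log L := by linarith
    have h2 : Real.log 16 ≤ Real.log L := by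
      have h3 : (16 : ℝ) = 2 ^ 4 := by norm_num
      rw [h3, Real.log_pow]
      have := Real.log_two_lt_d9
      push_cast
      linarith
    exact (Real.log_le_log_iff (by norm_num) hLpos).mp h2
  have hQ : 0 < Q := by
    rcases Nat.eq_zero_or_pos Q with h | h
    · rw [h] at hQ1
      simp only [Nat.cast_zero, mul_zero] at hQ1
      linarith
    · exact h
  exact cluster_of ha hb hg0 hg hgab hQ (by omega) hE hEB hgL hL x0 hC hN hQ1 hQ2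
    (hΩ B L (a * b) hB hL1 hD1 (by positivity) (prod_le_of ha hb hg0 hL1 hEB hN))
    (Pool.Agent.Helper78.ZE.log_modulus_le hg0) (Pool.Agent.Helper78.ZE.le_log_modulus hg0 hQ) g1 g2
    (cond_of hx1 hL1 g4 hBsq)

end Pool.Agent.Helper81.ZG
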