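import Pool.Agent.Helper44.ZE.Num
import Pool.Agent.Helper41.ZE.N3

/-!
# ZG: two members of the cluster which are close to each other

The difference of the numbers `theta` of two members, divided by its obvious factor, is a number `Δ ≠ 0` which is not
large.
-/

set_option autoImplicit false

namespace Pool.Agent.Helper81.ZG

open Finset Pool.Agent.Helper18.ZE

theorem kv_abs {a b : ℕ} (hab : a.Coprime b) (p : ℕ) :
    |(kv a b p : ℝ)| = a.factorization p + b.factorization p := by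
  have h7 : a.factorization p = 0 ∨ b.factorization p = 0 := by
    by_contra hcon
    push Not at hcon
    obtain ⟨h8, h9⟩ := hcon
    have h10 : p ∈ a.primeFactors := by
      rw [← Nat.support_factorization]
      exact Finsupp.mem_support_iff.mpr h8
    have h11 : p ∈ b.primeFactors := by
      rw [← Nat.support_factorization]
      exact Finsupp.mem_support_iff.mpr h9
    exact (Finset.disjoint_left.mp hab.disjoint_primeFactors) h10 h11
  unfold kv
  push_cast
  rcases h7 with h | h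
  · rw [h]
    simp
  · rw [h]
    simp

theorem sum_kv {a b : ℕ} (ha : 0 < a) (hb : 0 < b) (hab : a.Coprime b) :
    ∑ p ∈ (a * b).primeFactors, |(kv a b p : ℝ)| * Real.log p = Real.log a + Real.log b := by
  have ha0 : a ≠ 0 := ha.ne'
  have hb0 : b ≠ 0 := hb.ne'
  have hSa : a.primeFactors ⊆ (a * b).primeFactors :=
    Nat.primeFactors_mono (dvd_mul_right a b) (mul_ne_zero ha0 hb0)
  have hSb : b.primeFactors ⊆ (a * b).primeFactors :=
    Nat.primeFactors_mono (dvd_mul_left b a) (mul_ne_zero ha0 hb0)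
  rw [← Pool.Agent.Helper44.ZE.sum_fact_log ha0 _ hSa, ← Pool.Agent.Helper44.ZE.sum_fact_log hb0 _ hSb,
    ← sum_add_distrib]
  refine sum_congr rfl fun p _ => ?_
  rw [kv_abs hab p]
  ring

theorem log_rad {n : ℕ} : Real.log (∏ p ∈ n.primeFactors, p : ℕ) = ∑ p ∈ n.primeFactors, Real.log p := by
  rw [Nat.cast_prod, Real.log_prod]
  intro p hp
  have := (Nat.prime_of_mem_primeFactors hp).pos
  positivity

/-- Some exponent is at least `Q`. -/
theorem exists_large {a b Q : ℕ} {L lN : ℝ} (ha : 0 < a) (hb : 0 < b) (hab : a.Coprime b)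
    (hL : L = Real.log (a + b : ℕ)) (hL1 : 1 ≤ L)
    (hN : Real.log (∏ p ∈ (a * b).primeFactors, p : ℕ) ≤ lN) (hQL : 64 * (Q * lN) ≤ L) :
    ∃ p ∈ (a * b).primeFactors, (Q : ℤ) ≤ |kv a b p| := by
  by_contra hcon
  push Not at hcon
  have h1 : Real.log a + Real.log b ≤ Q * lN := by
    rw [← sum_kv ha hb hab]
    calc ∑ p ∈ (a * b).primeFactors, |(kv a b p : ℝ)| * Real.log p
        ≤ ∑ p ∈ (a * b).primeFactors, (Q : ℝ) * Real.log p := by
          refine sum_le_sum fun p hp => mul_le_mul_of_nonneg_right ?_ (Real.log_natCast_nonneg _)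
          have h2 : (|kv a b p| : ℤ) ≤ Q := (hcon p hp).le
          exact_mod_cast h2
      _ = Q * Real.log (∏ p ∈ (a * b).primeFactors, p : ℕ) := by rw [log_rad, mul_sum]
      _ ≤ Q * lN := mul_le_mul_of_nonneg_left hN (Nat.cast_nonneg _)
  have h2 : L ≤ Real.log 2 + (Real.log a + Real.log b) := by
    have ha' : (0 : ℝ) < a := by exact_mod_cast ha
    have hb' : (0 : ℝ) < b := by exact_mod_cast hb
    rw [← Real.log_mul ha'.ne' hb'.ne', ← Real.log_mul (by norm_num) (by positivity), hL]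
    refine Real.log_le_log (by positivity) ?_
    have h3 : a + b ≤ 2 * (a * b) := by nlinarith
    exact_mod_cast h3
  have := Real.log_two_lt_d9
  linarith

theorem wv_bounds (a b Q n p : ℕ) (hQ : 0 < Q) :
    (Q : ℤ) * wv a b Q n p ≤ n * kv a b p ∧ (n * kv a b p : ℤ) < Q * wv a b Q n p + Q := by
  have hQ' : (0 : ℤ) < Q := by exact_mod_cast hQ
  unfold wv
  constructor
  · exact Int.mul_ediv_self_le hQ'.ne'
  · exact Int.lt_mul_ediv_self_add hQ'

theorem wv_diff (a b Q p : ℕ) (hQ : 0 < Q) {n m : ℕ} (hnm : n ≤ m) :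
    (Q : ℤ) * |wv a b Q n p - wv a b Q m p| ≤ (m - n : ℕ) * |kv a b p| + Q := by
  obtain ⟨h1, h2⟩ := wv_bounds a b Q n p hQ
  obtain ⟨h3, h4⟩ := wv_bounds a b Q m p hQ
  obtain ⟨d, rfl⟩ := Nat.exists_eq_add_of_le hnm
  rw [Nat.add_sub_cancel_left]
  have hQ' : (0 : ℤ) < Q := by exact_mod_cast hQ
  have h5 : (d : ℤ) * kv a b p ≤ d * |kv a b p| := mul_le_mul_of_nonneg_left (le_abs_self _) (Int.natCast_nonneg _)
  have h6 : -((d : ℤ) * |kv a b p|) ≤ d * kv a b p := by
    have := mul_le_mul_of_nonneg_left (neg_abs_le (kv a b p)) (Int.natCast_nonneg d)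
    linarith
  push_cast at h3 h4
  rcases abs_cases (wv a b Q n p - wv a b Q (n + d) p) with ⟨h, _⟩ | ⟨h, _⟩
  · rw [h, mul_sub]
    linarith
  · rw [h, neg_sub, mul_sub]
    linarith

theorem wv_ne (a b Q p : ℕ) (hQ : 0 < Q) {n m : ℕ} (hnm : n < m) (hk : (Q : ℤ) ≤ |kv a b p|) :
    wv a b Q n p ≠ wv a b Q m p := by
  intro h
  obtain ⟨h1, h2⟩ := wv_bounds a b Q n p hQ
  obtain ⟨h3, h4⟩ := wv_bounds a b Q m p hQ
  rw [← h] at h3 h4
  have hm : (n : ℤ) + 1 ≤ m := by exact_mod_cast hnm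
  rcases abs_cases (kv a b p) with ⟨h5, h6⟩ | ⟨h5, h6⟩
  · rw [h5] at hk
    nlinarith
  · rw [h5] at hk
    nlinarith

theorem coprime_prod_pow (S : Finset ℕ) (hS : ∀ p ∈ S, p.Prime) (e : ℕ → ℕ) {p0 : ℕ} (hp0 : p0.Prime)
    (h0 : e p0 = 0) : p0.Coprime (∏ p ∈ S, p ^ e p) := by
  refine Nat.Coprime.prod_right fun p hp => ?_
  by_cases h : p = p0
  · rw [h, h0, pow_zero]
    exact Nat.coprime_one_right _
  · exact Nat.Coprime.pow_right _ ((Nat.coprime_primes hp0 (hS p hp)).2 fun h1 => h h1.symm)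

theorem pair_delta {a b Q : ℕ} {L lN : ℝ} (ha : 0 < a) (hb : 0 < b) (hab : a.Coprime b) (hQ : 0 < Q)
    (hL : L = Real.log (a + b : ℕ)) (hL1 : 1 ≤ L)
    (hN : Real.log (∏ p ∈ (a * b).primeFactors, p : ℕ) ≤ lN) (hQL : 64 * (Q * lN) ≤ L)
    {x y : ℕ × ℕ} (hx : x.1 ≤ Q) (hy : y.1 ≤ Q) (hxy : x.1 < y.1) (hxc : x.2.Coprime (a * b))
    (hyc : y.2.Coprime (a * b)) {Y : ℕ} (hx0 : 1 ≤ x.2) (hy0 : 1 ≤ y.2) (hxY : x.2 ≤ Y) (hyY : y.2 ≤ Y) :
    ∃ Δ : ℕ, Δ ≠ 0 ∧ Real.log Δ ≤ Real.log Y + ((y.1 - x.1 : ℕ) : ℝ) / Q * (2 * L) + lN ∧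
      ∀ q : ℕ, q.Prime → ¬ q ∣ a * b → ((theta a b Q x.1 x.2 : ℕ) : ZMod q) = (theta a b Q y.1 y.2 : ℕ) → q ∣ Δ := by
  have hQ' : (0 : ℝ) < Q := by exact_mod_cast hQ
  set S := (a * b).primeFactors with hS
  have hSp : ∀ p ∈ S, p.Prime := fun p hp => Nat.prime_of_mem_primeFactors hp
  set u : ℕ → ℕ := fun p => (wv a b Q x.1 p - wv a b Q y.1 p).toNat with hu
  set v : ℕ → ℕ := fun p => (wv a b Q y.1 p - wv a b Q x.1 p).toNat with hv
  set m : ℕ → ℕ := fun p => (min (wv a b Q x.1 p) (wv a b Q y.1 p) + |kv a b p|).toNat with hm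
  set G : ℕ := ∏ p ∈ S, p ^ m p with hG
  set X : ℕ := x.2 * ∏ p ∈ S, p ^ u p with hX
  set Z : ℕ := y.2 * ∏ p ∈ S, p ^ v p with hZ
  have hnx : ∀ p, 0 ≤ wv a b Q x.1 p + |kv a b p| := fun p => Pool.Agent.Helper41.ZE.wv_add_nonneg hQ hx
  have hny : ∀ p, 0 ≤ wv a b Q y.1 p + |kv a b p| := fun p => Pool.Agent.Helper41.ZE.wv_add_nonneg hQ hy
  have hθx : theta a b Q x.1 x.2 = G * X := by
    unfold theta
    rw [hX, mul_left_comm, hG, ← Finset.prod_mul_distrib]
    congr 1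
    refine Finset.prod_congr rfl fun p _ => ?_
    rw [← pow_add]
    congr 1
    have h1 := hnx p
    have h2 := hny p
    simp only [hm, hu]
    omega
  have hθy : theta a b Q y.1 y.2 = G * Z := by
    unfold theta
    rw [hZ, mul_left_comm, hG, ← Finset.prod_mul_distrib]
    congr 1
    refine Finset.prod_congr rfl fun p _ => ?_
    rw [← pow_add]
    congr 1
    have h1 := hnx p
    have h2 := hny p
    simp only [hm, hv]
    omega
  -- `X ≠ Z`
  have hne : X ≠ Z := by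
    intro h
    obtain ⟨p0, hp0, hk⟩ := exists_large ha hb hab hL hL1 hN hQL
    have hw := wv_ne a b Q p0 hQ hxy hk
    have hpr := hSp p0 hp0
    have hd0 : p0 ∣ a * b := Nat.dvd_of_mem_primeFactors hp0
    rcases lt_or_gt_of_ne hw with h1 | h1
    · have h2 : p0 ∣ Z := by
        rw [hZ]
        refine dvd_mul_of_dvd_right ?_ _
        refine dvd_trans (dvd_pow_self p0 (n := v p0) ?_) (Finset.dvd_prod_of_mem (fun p => p ^ v p) hp0)
        simp only [hv]
        omega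
      have h3 : p0.Coprime X := by
        rw [hX]
        refine Nat.Coprime.mul_right ?_ (coprime_prod_pow S hSp u hpr ?_)
        · exact (Nat.Coprime.coprime_dvd_right hd0 hxc).symm
        · simp only [hu]
          omega
      rw [h] at h3
      exact hpr.one_lt.ne' (Nat.Coprime.eq_one_of_dvd h3 h2)
    · have h2 : p0 ∣ X := by
        rw [hX]
        refine dvd_mul_of_dvd_right ?_ _
        refine dvd_trans (dvd_pow_self p0 (n := u p0) ?_) (Finset.dvd_prod_of_mem (fun p => p ^ u p) hp0)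
        simp only [hu]
        omega
      have h3 : p0.Coprime Z := by
        rw [hZ]
        refine Nat.Coprime.mul_right ?_ (coprime_prod_pow S hSp v hpr ?_)
        · exact (Nat.Coprime.coprime_dvd_right hd0 hyc).symm
        · simp only [hv]
          omega
      rw [← h] at h3
      exact hpr.one_lt.ne' (Nat.Coprime.eq_one_of_dvd h3 h2)
  -- sizes
  have hD : ∀ (e : ℕ → ℕ), (∀ p, (e p : ℤ) ≤ |wv a b Q x.1 p - wv a b Q y.1 p|) → ∀ s : ℕ, 1 ≤ s → s ≤ Y →
      Real.log ((s * ∏ p ∈ S, p ^ e p : ℕ) : ℝ) ≤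
        Real.log Y + ((y.1 - x.1 : ℕ) : ℝ) / Q * (2 * L) + lN := by
    intro e he s hs hsY
    have hs' : (0 : ℝ) < s := by exact_mod_cast hs
    have h1 : Real.log ((∏ p ∈ S, p ^ e p : ℕ) : ℝ) = ∑ p ∈ S, (e p : ℝ) * Real.log p := by
      rw [Nat.cast_prod, Real.log_prod]
      · refine Finset.sum_congr rfl fun p _ => ?_
        rw [Nat.cast_pow, Real.log_pow]
      · intro p hp
        have := (hSp p hp).pos
        positivity
    have hpos : 0 < ∏ p ∈ S, p ^ e p := Finset.prod_pos fun p hp => pow_pos (hSp p hp).pos _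
    have hpos' : (0 : ℝ) < ((∏ p ∈ S, p ^ e p : ℕ) : ℝ) := by exact_mod_cast hpos
    rw [Nat.cast_mul, Real.log_mul hs'.ne' hpos'.ne', h1]
    have h2 : Real.log s ≤ Real.log Y := Real.log_le_log hs' (by exact_mod_cast hsY)
    have h3 : ∑ p ∈ S, (e p : ℝ) * Real.log p ≤
        ∑ p ∈ S, (((y.1 - x.1 : ℕ) : ℝ) / Q * (|(kv a b p : ℝ)| * Real.log p) + Real.log p) := by
      refine Finset.sum_le_sum fun p hp => ?_
      have h4 : (e p : ℝ) ≤ ((y.1 - x.1 : ℕ) : ℝ) / Q * |(kv a b p : ℝ)| + 1 := by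
        have h5 := wv_diff a b Q p hQ hxy.le
        have h6 : (Q : ℤ) * e p ≤ (y.1 - x.1 : ℕ) * |kv a b p| + Q :=
          (mul_le_mul_of_nonneg_left (he p) (Int.natCast_nonneg _)).trans h5
        have h7 : (Q : ℝ) * e p ≤ ((y.1 - x.1 : ℕ) : ℝ) * |(kv a b p : ℝ)| + Q := by exact_mod_cast h6
        have h8 : (Q : ℝ) * e p ≤ Q * (((y.1 - x.1 : ℕ) : ℝ) / Q * |(kv a b p : ℝ)| + 1) := by
          refine h7.trans (le_of_eq ?_)
          field_simp
        exact le_of_mul_le_mul_left h8 hQ'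
      have h9 : 0 ≤ Real.log p := Real.log_natCast_nonneg _
      calc (e p : ℝ) * Real.log p ≤ (((y.1 - x.1 : ℕ) : ℝ) / Q * |(kv a b p : ℝ)| + 1) * Real.log p :=
            mul_le_mul_of_nonneg_right h4 h9
        _ = _ := by ring
    have h10 : ∑ p ∈ S, (((y.1 - x.1 : ℕ) : ℝ) / Q * (|(kv a b p : ℝ)| * Real.log p) + Real.log p) =
        ((y.1 - x.1 : ℕ) : ℝ) / Q * (Real.log a + Real.log b) + Real.log (∏ p ∈ S, p : ℕ) := by
      rw [Finset.sum_add_distrib, ← Finset.mul_sum, sum_kv ha hb hab, hS, log_rad]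
    have hla : Real.log a ≤ L := by
      rw [hL]
      exact Real.log_le_log (by exact_mod_cast ha) (by exact_mod_cast Nat.le_add_right a b)
    have hlb : Real.log b ≤ L := by
      rw [hL]
      exact Real.log_le_log (by exact_mod_cast hb) (by exact_mod_cast Nat.le_add_left b a)
    have h11 : ((y.1 - x.1 : ℕ) : ℝ) / Q * (Real.log a + Real.log b) ≤ ((y.1 - x.1 : ℕ) : ℝ) / Q * (2 * L) :=
      mul_le_mul_of_nonneg_left (by linarith) (by positivity)
    linarith
  have hlX := hD u (fun p => by simp only [hu]; rcases abs_cases (wv a b Q x.1 p - wv a b Q y.1 p) with h | h <;> omega)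
    x.2 hx0 hxY
  have hlZ := hD v (fun p => by simp only [hv]; rcases abs_cases (wv a b Q x.1 p - wv a b Q y.1 p) with h | h <;> omega)
    y.2 hy0 hyY
  have hΔne : ((X : ℤ) - Z).natAbs ≠ 0 := by omega
  refine ⟨((X : ℤ) - Z).natAbs, hΔne, ?_, ?_⟩
  · have hΔpos : (0 : ℝ) < (((X : ℤ) - Z).natAbs : ℕ) := by exact_mod_cast Nat.pos_of_ne_zero hΔne
    rcases le_total X Z with h | h
    · refine (Real.log_le_log hΔpos ?_).trans hlZ
      have : ((X : ℤ) - Z).natAbs ≤ Z := by omega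
      exact_mod_cast this
    · refine (Real.log_le_log hΔpos ?_).trans hlX
      have : ((X : ℤ) - Z).natAbs ≤ X := by omega
      exact_mod_cast this
  · intro q hq hqab h
    have : Fact q.Prime := ⟨hq⟩
    rw [hθx, hθy] at h
    have h' : ((G : ℕ) : ZMod q) * ((X : ℕ) : ZMod q) = ((G : ℕ) : ZMod q) * ((Z : ℕ) : ZMod q) := by
      rw [← Nat.cast_mul, ← Nat.cast_mul]
      exact h
    have hG0 : ((G : ℕ) : ZMod q) ≠ 0 := by
      rw [Ne, ZMod.natCast_eq_zero_iff, hG, Prime.dvd_finset_prod_iff hq.prime]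
      rintro ⟨p, hp, hpd⟩
      have h1 := hq.dvd_of_dvd_pow hpd
      exact hqab (h1.trans (Nat.dvd_of_mem_primeFactors hp))
    have h2 := mul_left_cancel₀ hG0 h'
    rw [← Int.natCast_dvd_natCast, Int.dvd_natAbs, ← ZMod.intCast_zmod_eq_zero_iff_dvd]
    push_cast
    rw [h2, sub_self]

/-- In a set of `t ≥ 2` pairs with different first coordinates `< Q` there are two at distance at most `Q / (t - 1)`. -/
theorem exists_close {Q : ℕ} (hQ : 0 < Q) (T : Finset (ℕ × ℕ)) (hT : ∀ x ∈ T, x.1 < Q)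
    (hinj : ∀ x ∈ T, ∀ y ∈ T, x.1 = y.1 → x = y) (h2 : 2 ≤ T.card) :
    ∃ x ∈ T, ∃ y ∈ T, x.1 < y.1 ∧ (y.1 - x.1) * (T.card - 1) ≤ Q := by
  have h1 : 0 < T.card - 1 := by omega
  obtain ⟨x, hx, y, hy, hne, hxy⟩ := Finset.exists_ne_map_eq_of_card_lt_of_maps_to
    (s := T) (t := Finset.range (T.card - 1)) (by rw [Finset.card_range]; omega)
    (f := fun z => z.1 * (T.card - 1) / Q) (fun z hz => by
      have hz1 := hT z hz
      simp only [Finset.coe_range, Set.mem_Iio]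
      rw [Nat.div_lt_iff_lt_mul hQ, mul_comm (T.card - 1)]
      exact Nat.mul_lt_mul_of_pos_right hz1 h1)
  have key : ∀ z w : ℕ × ℕ, z.1 * (T.card - 1) / Q = w.1 * (T.card - 1) / Q → z.1 < w.1 →
      (w.1 - z.1) * (T.card - 1) ≤ Q := by
    intro z w h hzw
    have h3 := Nat.div_mul_le_self (z.1 * (T.card - 1)) Q
    have h4 := Nat.lt_div_mul_add (a := w.1 * (T.card - 1)) hQ
    rw [← h] at h4
    rw [Nat.sub_mul]
    omega
  rcases lt_trichotomy x.1 y.1 with h | h | h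
  · exact ⟨x, hx, y, hy, h, key x y hxy h⟩
  · exact absurd (hinj x hx y hy h) hne
  · exact ⟨y, hy, x, hx, h, key y x hxy.symm h⟩

end Pool.Agent.Helper81.ZG
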