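import Pool.Agent.Helper84.ZE.PrimeU
import Pool.Agent.Helper60.ZE.PrimesEl

/-!
# ZG: the choice of `q`, prime to a second number `Δ` which is not too large
-/

set_option autoImplicit false

namespace Pool.Agent.Helper81.ZG

open Finset Helper48.ZEF Pool.Agent.Helper18.ZE

open Classical in
theorem card_dvd_mul_le {Q N Δ B m : ℕ} (hQ : 2 ≤ Q) (hN : N ≠ 0) (hB : (∏ p ∈ N.primeFactors, p : ℕ) ≤ Q ^ B)
    (hΔ : Δ ≠ 0) (hm : Δ ≤ Q ^ m) :
    ((Finset.Ioc Q (4 * Q)).filter (fun q => q.Prime ∧ q ∣ N * Δ)).card ≤ B + m := by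
  have h1 := Helper48.ZE.card_dvd_le (Q := Q) (N := N) (B := B) hQ hN hB
  have h2 := Helper48.ZE.card_dvd_le (Q := Q) (N := Δ) (B := m) hQ hΔ
    ((Nat.le_of_dvd (Nat.pos_of_ne_zero hΔ) (Nat.prod_primeFactors_dvd Δ)).trans hm)
  have h3 : (Finset.Ioc Q (4 * Q)).filter (fun q => q.Prime ∧ q ∣ N * Δ) ⊆
      (Finset.Ioc Q (4 * Q)).filter (fun q => q.Prime ∧ q ∣ N) ∪
        (Finset.Ioc Q (4 * Q)).filter (fun q => q.Prime ∧ q ∣ Δ) := by
    intro q hq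
    obtain ⟨h4, h5, h6⟩ := Finset.mem_filter.mp hq
    rw [Finset.mem_union, Finset.mem_filter, Finset.mem_filter]
    rcases (Nat.Prime.dvd_mul h5).mp h6 with h | h
    · exact Or.inl ⟨h4, h5, h⟩
    · exact Or.inr ⟨h4, h5, h⟩
  calc _ ≤ _ := Finset.card_le_card h3
    _ ≤ _ := Finset.card_union_le _ _
    _ ≤ B + m := Nat.add_le_add h1 h2

/-- the choice of `q` with explicit conditions -/
theorem exists_prime_core (r B Q : ℕ) (T : Finset ℕ) (N Δ m : ℕ) (hQ : Q.Prime)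
    (hrQ : 2 * (r + 1) ≤ Q)
    (hp : (Q : ℝ) ≤ Real.log Q * ((Finset.Ioc Q (4 * Q)).filter Nat.Prime).card)
    (hl : Real.log Q * (2 * (6 * ((r : ℝ) + 1) ^ 2 + B + 1)) ≤ (Q : ℝ) ^ (1 / 9 : ℝ))
    (hT : ∀ n ∈ T, n < Q) (hTQ : Q ≤ T.card ^ 9) (hN : N ≠ 0)
    (hNB : (∏ p ∈ N.primeFactors, p : ℕ) ≤ Q ^ B) (hΔ : Δ ≠ 0) (hΔm : Δ ≤ Q ^ m)
    (hm : 2 * (m : ℝ) * Real.log Q ≤ Q) :
    ∃ q : ℕ, q.Prime ∧ Q < q ∧ q ≤ 4 * Q ∧ ¬ q ∣ N ∧ ¬ q ∣ Δ ∧ Good Q (r + 1) T q := by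
  classical
  set E : ℝ := 6 * ((r : ℝ) + 1) ^ 2 + B + 1 with hE
  have hEpos : 0 < E := by positivity
  have h2Q : 2 ≤ Q := hQ.two_le
  have hQR : (1:ℝ) < Q := by exact_mod_cast h2Q
  have hQpos : (0:ℝ) < Q := by linarith
  have hlogpos : 0 < Real.log Q := Real.log_pos hQR
  set P := ((Finset.Ioc Q (4 * Q)).filter Nat.Prime).card with hP
  have hT0 : 0 < T.card := by
    by_contra h
    have : T.card = 0 := by omega
    rw [this] at hTQ
    simp at hTQ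
    omega
  have hTR : (0:ℝ) < T.card := by exact_mod_cast hT0
  have hroot : (Q:ℝ) ^ (1 / 9 : ℝ) ≤ T.card := by
    have h1 : (Q:ℝ) ≤ (T.card : ℝ) ^ 9 := by exact_mod_cast hTQ
    calc (Q:ℝ) ^ (1 / 9 : ℝ) ≤ ((T.card : ℝ) ^ 9) ^ (1 / 9 : ℝ) :=
          Real.rpow_le_rpow hQpos.le h1 (by norm_num)
      _ = T.card := by
          rw [← Real.rpow_natCast, ← Real.rpow_mul hTR.le]
          norm_num
  have hD := card_dvd_mul_le (Q := Q) (N := N) (Δ := Δ) (B := B) (m := m) h2Q hN hNB hΔ hΔm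
  have hcount : 3 * (2 * (r + 1) ^ 2 * Q / T.card)
        + ((Finset.Ioc Q (4 * Q)).filter (fun q => q.Prime ∧ q ∣ N * Δ)).card < P := by
    have h1 : ((2 * (r + 1) ^ 2 * Q / T.card : ℕ) : ℝ) ≤ 2 * ((r:ℝ) + 1) ^ 2 * Q / T.card := by
      have := @Nat.cast_div_le ℝ _ _ _ (2 * (r + 1) ^ 2 * Q) T.card
      push_cast at this ⊢
      exact this
    set U := (Q:ℝ) ^ (1 / 9 : ℝ) with hU
    have hUpos : 0 < U := by positivity
    have h2 : 2 * ((r:ℝ) + 1) ^ 2 * Q / T.card ≤ 2 * ((r:ℝ) + 1) ^ 2 * Q / U :=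
      div_le_div_of_nonneg_left (by positivity) hUpos hroot
    have hUQ : U ≤ Q := by
      rw [hU]
      calc (Q:ℝ) ^ (1 / 9 : ℝ) ≤ (Q:ℝ) ^ (1 : ℝ) :=
            Real.rpow_le_rpow_of_exponent_le hQR.le (by norm_num)
        _ = Q := Real.rpow_one _
    have h3 : (B:ℝ) ≤ B * (Q / U) := by
      have : 1 ≤ (Q:ℝ) / U := by rw [le_div_iff₀ hUpos]; linarith
      nlinarith [Nat.cast_nonneg (α := ℝ) B]
    have h4 : (Q:ℝ) / Real.log Q ≤ P := by
      rw [div_le_iff₀ hlogpos]; linarith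
    have h5 : E * (Q / U) ≤ Q / Real.log Q / 2 := by
      rw [div_div, le_div_iff₀ (by positivity)]
      have h7 : E * (Q / U) * (Real.log Q * 2) = (Real.log Q * (2 * E)) / U * Q := by ring
      rw [h7]
      have h8 : (Real.log Q * (2 * E)) / U ≤ 1 := by
        rw [div_le_one hUpos]
        exact hl
      nlinarith
    have h6 : (m : ℝ) ≤ Q / Real.log Q / 2 := by
      rw [div_div, le_div_iff₀ (by positivity)]
      linarith
    have hQU : 0 < (Q : ℝ) / U := by positivity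
    have h9 : (3 * (2 * (r + 1) ^ 2 * Q / T.card : ℕ) : ℝ) + (B + m) < P := by
      calc (3 * (2 * (r + 1) ^ 2 * Q / T.card : ℕ) : ℝ) + (B + m)
          ≤ 3 * (2 * ((r:ℝ) + 1) ^ 2 * Q / U) + B * (Q / U) + m := by linarith
        _ = (6 * ((r:ℝ) + 1) ^ 2 + B) * (Q / U) + m := by ring
        _ < E * (Q / U) + m := by
            have : (6 * ((r:ℝ) + 1) ^ 2 + B) * (Q / U) < E * (Q / U) := by
              apply mul_lt_mul_of_pos_right _ hQU
              rw [hE]; linarith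
            linarith
        _ ≤ Q / Real.log Q := by linarith
        _ ≤ P := h4
    have h10 : 3 * (2 * (r + 1) ^ 2 * Q / T.card) + (B + m) < P := by exact_mod_cast h9
    omega
  obtain ⟨q, hq1, hq2, hq3, hq4, hb⟩ := choice_q Q (r + 1) (N * Δ) hQ (by omega) hrQ T hT hT0 hcount
  exact ⟨q, hq1, hq2, hq3, fun h => hq4 (dvd_mul_of_dvd_left h _), fun h => hq4 (dvd_mul_of_dvd_right h _), hb⟩

/-- uniform form -/
theorem exists_primeU : ∃ D : ℕ, ∀ (B r Q : ℕ) (T : Finset ℕ) (N Δ m : ℕ), 1 ≤ B → r + 1 = 2048 * B →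
    ((B + 1 : ℕ) : ℝ) ^ (D * B) ≤ Real.log Q → Q.Prime → (∀ n ∈ T, n < Q) →
    Q ≤ T.card ^ 9 → N ≠ 0 → (∏ p ∈ N.primeFactors, p : ℕ) ≤ Q ^ (2 * B) → Δ ≠ 0 → Δ ≤ Q ^ m →
    2 * (m : ℝ) * Real.log Q ≤ Q →
    ∃ q : ℕ, q.Prime ∧ Q < q ∧ q ≤ 4 * Q ∧ ¬ q ∣ N ∧ ¬ q ∣ Δ ∧ Good Q (r + 1) T q := by
  obtain ⟨x0, hx0⟩ := Pool.Agent.Helper60.ZE.card_primes_el
  refine ⟨x0 + 30, ?_⟩
  intro B r Q T N Δ m hB hr hlog hQ hT hTQ hN hNB hΔ hΔm hm
  have hQR : (1:ℝ) < Q := by exact_mod_cast hQ.one_lt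
  have hQpos : (0:ℝ) < Q := by linarith
  have hB1 : (2:ℝ) ≤ ((B + 1 : ℕ) : ℝ) := by exact_mod_cast (by omega : 2 ≤ B + 1)
  have h1 : ((B + 1 : ℕ) : ℝ) ^ (x0 + 30) ≤ Real.log Q := by
    refine le_trans (pow_le_pow_right₀ (by linarith) ?_) hlog
    exact Nat.le_mul_of_pos_right _ (by omega)
  have h30 : ((B + 1 : ℕ) : ℝ) ^ 30 ≤ Real.log Q := by
    refine le_trans (pow_le_pow_right₀ (by linarith) ?_) h1
    omega
  have hlow : (2:ℝ) ^ 30 ≤ Real.log Q :=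
    le_trans (pow_le_pow_left₀ (by norm_num) hB1 30) h30
  have hQlog : Real.log Q ≤ Q := by
    have := Real.log_le_sub_one_of_pos hQpos
    linarith
  have hx : x0 ≤ Q := by
    have h2 : (2:ℝ) ^ x0 ≤ Real.log Q := by
      refine le_trans ?_ h1
      refine le_trans (pow_le_pow_left₀ (by norm_num) hB1 x0) ?_
      exact pow_le_pow_right₀ (by linarith) (by omega)
    have h3 : (x0 : ℝ) ≤ (2:ℝ) ^ x0 := by exact_mod_cast (Nat.lt_two_pow_self (n := x0)).le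
    exact_mod_cast h3.trans (h2.trans hQlog)
  have hb : ((B + 1 : ℕ) : ℝ) = (B : ℝ) + 1 := by push_cast; ring
  have hBR : (1 : ℝ) ≤ B := by exact_mod_cast hB
  have hE : 6 * ((r : ℝ) + 1) ^ 2 + (2 * B : ℕ) + 1 ≤ Real.log Q := by
    refine le_trans ?_ h30
    have hr' : (r : ℝ) + 1 = 2048 * B := by exact_mod_cast hr
    rw [hr', hb]
    have h4 : ((B : ℝ) + 1) ^ 30 = ((B : ℝ) + 1) ^ 28 * ((B : ℝ) + 1) ^ 2 := by ring
    have h5 : (2:ℝ) ^ 28 ≤ ((B : ℝ) + 1) ^ 28 := pow_le_pow_left₀ (by norm_num) (by linarith) 28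
    have h6 : (2:ℝ) ^ 28 * ((B : ℝ) + 1) ^ 2 ≤ ((B : ℝ) + 1) ^ 28 * ((B : ℝ) + 1) ^ 2 :=
      mul_le_mul_of_nonneg_right h5 (by positivity)
    rw [h4]
    refine le_trans ?_ h6
    push_cast
    nlinarith
  have hlogpos : 0 < Real.log Q := Real.log_pos hQR
  refine exists_prime_core r (2 * B) Q T N Δ m hQ ?_ (hx0 Q hx) ?_ hT hTQ hN hNB hΔ hΔm hm
  · have h7 : (2 * ((r : ℝ) + 1)) ≤ Q := by
      have hr0 : (0:ℝ) ≤ r := Nat.cast_nonneg r
      have : 2 * ((r : ℝ) + 1) ≤ 6 * ((r : ℝ) + 1) ^ 2 + (2 * B : ℕ) + 1 := by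
        have : (0:ℝ) ≤ ((2 * B : ℕ) : ℝ) := Nat.cast_nonneg _
        nlinarith
      linarith
    exact_mod_cast h7
  · have h8 : (Q : ℝ) ^ (1 / 9 : ℝ) = Real.exp (Real.log Q / 9) := by
      rw [Real.rpow_def_of_pos hQpos]
      congr 1
      ring
    rw [h8]
    have h9 := Pool.Agent.Helper84.ZE.two_sq_le_exp (x := Real.log Q) (le_trans (by norm_num) hlow)
    refine le_trans ?_ h9
    have : Real.log Q * (2 * (6 * ((r : ℝ) + 1) ^ 2 + (2 * B : ℕ) + 1))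
        ≤ Real.log Q * (2 * Real.log Q) :=
      mul_le_mul_of_nonneg_left (by linarith) hlogpos.le
    nlinarith

/-- The selection of the members of the cluster: not all values of `θ` are equal. -/
theorem select {R : Type} [DecidableEq R] {r Q q : ℕ} (hr : 1 ≤ r) (hQ : 0 < Q) (T : Finset (ℕ × ℕ))
    (θ : ℕ × ℕ → R) (hG : Good Q (r + 1) (T.image Prod.fst) q) {x y : ℕ × ℕ} (hx : x ∈ T) (hy : y ∈ T)
    (hxy : θ x ≠ θ y) :
    ∃ z : Fin (r + 1) → ℕ × ℕ, (∀ i, z i ∈ T) ∧ Dense r Q q (fun i => (z i).1) ∧ ∃ i, θ (z i) ≠ θ (z 0) := by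
  obtain ⟨b, hb⟩ := hG
  have h1 : ∀ i : Fin (r + 1), ∃ z ∈ T, i.val * Q ≤ (r + 1) * ((q * z.1 + b) % Q) ∧
      (r + 1) * ((q * z.1 + b) % Q) < (i.val + 1) * Q := by
    intro i
    obtain ⟨n, hn, h2⟩ := hb i.val i.isLt
    obtain ⟨z, hz, rfl⟩ := Finset.mem_image.1 hn
    exact ⟨z, hz, h2⟩
  choose z hz hzb using h1
  by_cases hall : ∃ i, θ (z i) ≠ θ (z 0)
  · exact ⟨z, hz, ⟨b, hzb⟩, hall⟩
  · push Not at hall
    obtain ⟨t, ht, htθ⟩ : ∃ t ∈ T, θ t ≠ θ (z 0) := by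
      by_contra hcon
      push Not at hcon
      exact hxy ((hcon x hx).trans (hcon y hy).symm)
    set j : ℕ := (r + 1) * ((q * t.1 + b) % Q) / Q with hj
    have hjr : j < r + 1 := by
      rw [hj, Nat.div_lt_iff_lt_mul hQ]
      exact Nat.mul_lt_mul_of_pos_left (Nat.mod_lt _ hQ) (by omega)
    have hj1 : j * Q ≤ (r + 1) * ((q * t.1 + b) % Q) := Nat.div_mul_le_self _ _
    have hj2 : (r + 1) * ((q * t.1 + b) % Q) < (j + 1) * Q := by
      have h3 := Nat.lt_div_mul_add (a := (r + 1) * ((q * t.1 + b) % Q)) hQ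
      rw [← hj] at h3
      calc _ < j * Q + Q := h3
        _ = (j + 1) * Q := by ring
    have hd : ∀ i : Fin (r + 1), i.val * Q ≤ (r + 1) * ((q * (Function.update z ⟨j, hjr⟩ t i).1 + b) % Q) ∧
        (r + 1) * ((q * (Function.update z ⟨j, hjr⟩ t i).1 + b) % Q) < (i.val + 1) * Q := by
      intro i
      by_cases h : i = ⟨j, hjr⟩
      · subst h
        rw [Function.update_self]
        exact ⟨hj1, hj2⟩
      · rw [Function.update_of_ne h]
        exact hzb i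
    refine ⟨Function.update z ⟨j, hjr⟩ t, ?_, ⟨b, hd⟩, ?_⟩
    · intro i
      by_cases h : i = ⟨j, hjr⟩
      · subst h
        rw [Function.update_self]
        exact ht
      · rw [Function.update_of_ne h]
        exact hz i
    · by_cases h : (0 : Fin (r + 1)) = ⟨j, hjr⟩
      · have h2 : (Fin.last r) ≠ ⟨j, hjr⟩ := by
          rw [← h, Ne, Fin.ext_iff, Fin.val_last]
          simp only [Fin.val_zero]
          omega
        refine ⟨Fin.last r, ?_⟩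
        rw [Function.update_of_ne h2, ← h, Function.update_self, hall]
        exact htθ.symm
      · refine ⟨⟨j, hjr⟩, ?_⟩
        rw [Function.update_self, Function.update_of_ne h]
        exact htθ

end Pool.Agent.Helper81.ZG
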