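import Pool.Agent.Helper44.ZE.Num

/-!
# ZG: the size of the numbers `num`, with the radical of `a b g`
-/

set_option autoImplicit false

namespace Pool.Agent.Helper81.ZG

open Finset Pool.Agent.Helper18.ZE Pool.Agent.Helper44.ZE

/-- N2: the size. -/
theorem num_le {a b g Q K C M r Y : ℕ} (ha : 0 < a) (hb : 0 < b) (hab : a.Coprime b) (hg : g ≠ 0) (hQ : 0 < Q) (hK : 0 < K)
    (hY : 1 ≤ Y) {n s : Fin (r + 1) → ℕ} (hs : ∀ i, s i ≤ Y) {v : Row r} (hv : IsRow r Q C M n v)
    (hbox : ∀ i, ∀ p ∈ (a * b).primeFactors, box a b Q K (n i) p = box a b Q K (n 0) p) :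
    (|num a b Q K C M r n s v| : ℤ) ≤ Real.exp ((r + 1) * C * Real.log Y + 2 * M * Real.log (a + b : ℕ) +
      (2 * ((r + 1) * C) / K + 2) * Real.log (∏ p ∈ (a * b * g).primeFactors, p : ℕ)) := by
  have hQ' : (0 : ℝ) < Q := by exact_mod_cast hQ
  have hK' : (0 : ℝ) < K := by exact_mod_cast hK
  have hY' : (1 : ℝ) ≤ Y := by exact_mod_cast hY
  set S := (a * b).primeFactors with hSdef
  set E : ℕ → ℤ := fun p => expo a b Q K C M r n v p with hE
  have hE0 : ∀ p ∈ S, 0 ≤ E p := fun p hp => expo_nonneg hQ hK hv p fun i => hbox i p hp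
  have habs : (|num a b Q K C M r n s v| : ℤ) =
      (((∏ i, s i ^ v.1 i) * ∏ p ∈ S, p ^ (E p).toNat : ℕ) : ℤ) := by
    unfold num
    rw [abs_mul, abs_pow, abs_neg, abs_one, one_pow, one_mul, abs_of_nonneg (by positivity)]
  have hpos : ∀ p ∈ S, 0 < p := fun p hp => (Nat.prime_of_mem_primeFactors hp).pos
  have hlogp : ∀ p ∈ S, 0 ≤ Real.log p := fun p hp =>
    Real.log_nonneg (by exact_mod_cast hpos p hp)
  -- the product over the `s i`
  have h1 : ((∏ i, s i ^ v.1 i : ℕ) : ℝ) ≤ Real.exp ((r + 1) * C * Real.log Y) := by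
    have h2 : ∏ i, s i ^ v.1 i ≤ Y ^ ((r + 1) * C) := by
      calc ∏ i, s i ^ v.1 i ≤ ∏ i, Y ^ v.1 i := prod_le_prod' fun i _ => Nat.pow_le_pow_left (hs i) _
        _ = Y ^ ∑ i, v.1 i := prod_pow_eq_pow_sum _ _ _
        _ = Y ^ ((r + 1) * C) := by rw [hv.1]
    have h3 : ((Y ^ ((r + 1) * C) : ℕ) : ℝ) = Real.exp ((r + 1) * C * Real.log Y) := by
      have : (Y : ℝ) = Real.exp (Real.log Y) := (Real.exp_log (by linarith)).symm
      rw [Nat.cast_pow]
      conv_lhs => rw [this]
      rw [← Real.exp_nat_mul]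
      push_cast
      ring_nf
    rw [← h3]
    exact_mod_cast h2
  -- the product over the primes
  have h4 : ((∏ p ∈ S, p ^ (E p).toNat : ℕ) : ℝ) = Real.exp (∑ p ∈ S, (E p : ℝ) * Real.log p) := by
    rw [Real.exp_sum, Nat.cast_prod]
    refine prod_congr rfl fun p hp => ?_
    have h5 : (0 : ℝ) < p := by exact_mod_cast hpos p hp
    have h6 : ((E p : ℤ) : ℝ) = ((E p).toNat : ℝ) := by
      have := Int.toNat_of_nonneg (hE0 p hp)
      exact_mod_cast this.symm
    rw [h6, Nat.cast_pow, Real.exp_nat_mul, Real.exp_log h5]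
  set t : ℝ := (tq r Q C M n v : ℝ) / Q with ht
  have htM : |t| ≤ M := by
    rw [ht, abs_div, abs_of_pos hQ', div_le_iff₀ hQ']
    have := hv.2
    exact_mod_cast this
  have ha0 : a ≠ 0 := ha.ne'
  have hb0 : b ≠ 0 := hb.ne'
  have hSa : a.primeFactors ⊆ S := Nat.primeFactors_mono (dvd_mul_right a b) (mul_ne_zero ha0 hb0)
  have hSb : b.primeFactors ⊆ S := Nat.primeFactors_mono (dvd_mul_left b a) (mul_ne_zero ha0 hb0)
  have hla := sum_fact_log ha0 S hSa
  have hlb := sum_fact_log hb0 S hSb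
  have hkv : ∀ p, |(kv a b p : ℝ)| = a.factorization p + b.factorization p := by
    intro p
    have h7 : a.factorization p = 0 ∨ b.factorization p = 0 := by
      by_contra hcon
      push Not at hcon
      obtain ⟨h8, h9⟩ := hcon
      have h10 : p ∈ a.primeFactors := by
        rw [← Nat.support_factorization]
        exact Finsupp.mem_support_iff.mpr h8
      have h11 : p ∈ b.primeFactors := by
        rw [← Nat.support_factorization]
        exact Finsupp.mem_support_iff.mpr h9
      exact (Finset.disjoint_left.mp hab.disjoint_primeFactors) h10 h11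
    unfold kv
    push_cast
    rcases h7 with h | h
    · rw [h]
      simp
    · rw [h]
      simp
  have h12 : ∑ p ∈ S, (E p : ℝ) * Real.log p ≤ 2 * M * Real.log (a + b : ℕ) +
      (2 * ((r + 1) * C) / K + 2) * Real.log (∏ p ∈ (a * b * g).primeFactors, p : ℕ) := by
    have h13 : ∑ p ∈ S, (E p : ℝ) * Real.log p ≤
        ∑ p ∈ S, (M * |(kv a b p : ℝ)| + kv a b p * t + (2 * ((r + 1) * C) / K + 1)) * Real.log p :=
      sum_le_sum fun p hp => mul_le_mul_of_nonneg_right
        (expo_le hQ hK hv p fun i => hbox i p hp) (hlogp p hp)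
    refine h13.trans ?_
    have h14 : ∑ p ∈ S, (M * |(kv a b p : ℝ)| + kv a b p * t + (2 * ((r + 1) * C) / K + 1)) * Real.log p =
        M * (Real.log a + Real.log b) + t * (Real.log a - Real.log b) +
          (2 * ((r + 1) * C) / K + 1) * ∑ p ∈ S, Real.log p := by
      rw [← hla, ← hlb, ← sum_add_distrib, ← sum_sub_distrib, mul_sum, mul_sum, mul_sum,
        ← sum_add_distrib, ← sum_add_distrib]
      refine sum_congr rfl fun p _ => ?_
      rw [hkv p]
      unfold kv
      push_cast
      ring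
    rw [h14]
    have hc : (0 : ℝ) < ((a + b : ℕ) : ℝ) := by exact_mod_cast Nat.add_pos_left ha b
    have hlac : Real.log a ≤ Real.log (a + b : ℕ) :=
      Real.log_le_log (by exact_mod_cast ha) (by exact_mod_cast Nat.le_add_right a b)
    have hlbc : Real.log b ≤ Real.log (a + b : ℕ) :=
      Real.log_le_log (by exact_mod_cast hb) (by exact_mod_cast Nat.le_add_left b a)
    have h15 : M * (Real.log a + Real.log b) + t * (Real.log a - Real.log b) ≤
        2 * M * Real.log (a + b : ℕ) := by
      have hM0 : (0 : ℝ) ≤ M := Nat.cast_nonneg _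
      have h16 := abs_le.mp htM
      rcases le_total (Real.log b) (Real.log a) with h | h
      · have h17 : t * (Real.log a - Real.log b) ≤ M * (Real.log a - Real.log b) :=
          mul_le_mul_of_nonneg_right h16.2 (by linarith)
        nlinarith
      · have h17 : t * (Real.log a - Real.log b) ≤ M * (Real.log b - Real.log a) := by
          have := mul_le_mul_of_nonneg_right h16.1 (sub_nonneg.mpr h)
          nlinarith
        nlinarith
    have h18 : ∑ p ∈ S, Real.log p ≤ Real.log (∏ p ∈ (a * b * g).primeFactors, p : ℕ) := by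
      have h19 : Real.log (∏ p ∈ S, p : ℕ) = ∑ p ∈ S, Real.log p := by
        rw [Nat.cast_prod, Real.log_prod]
        intro p hp
        have := hpos p hp
        positivity
      rw [← h19]
      have hsub : S ⊆ (a * b * g).primeFactors :=
        Nat.primeFactors_mono (dvd_mul_right _ _) (by positivity)
      have h20 : ∏ p ∈ S, p ≤ ∏ p ∈ (a * b * g).primeFactors, p :=
        Nat.le_of_dvd (prod_pos fun p hp => (Nat.prime_of_mem_primeFactors hp).pos)
          (prod_dvd_prod_of_subset _ _ _ hsub)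
      exact Real.log_le_log (by exact_mod_cast prod_pos hpos) (by exact_mod_cast h20)
    have h21 : 0 ≤ Real.log (∏ p ∈ (a * b * g).primeFactors, p : ℕ) :=
      (sum_nonneg hlogp).trans h18
    have h22 : (0 : ℝ) ≤ 2 * ((r + 1) * C) / K := by positivity
    have h23 := mul_le_mul_of_nonneg_left h18 (by linarith : (0 : ℝ) ≤ 2 * ((r + 1) * C) / K + 1)
    nlinarith
  have h24 : ((|num a b Q K C M r n s v| : ℤ) : ℝ) =
      ((∏ i, s i ^ v.1 i : ℕ) : ℝ) * ((∏ p ∈ S, p ^ (E p).toNat : ℕ) : ℝ) := by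
    rw [habs]
    push_cast
    ring
  rw [h24, h4, add_assoc, Real.exp_add]
  exact mul_le_mul h1 (Real.exp_le_exp.mpr h12) (Real.exp_pos _).le (Real.exp_pos _).le

end Pool.Agent.Helper81.ZG
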