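import Pool.Agent.Helper81.ZG.Core
import Pool.Agent.Helper81.ZG.Size
import Pool.Agent.Helper81.ZG.Cluster
import Pool.Agent.Helper81.ZG.Sel
import Pool.Agent.Helper81.ZG.Pair
import Pool.Agent.Helper18.ZE.Asm

/-!
# ZG: from `det_core` and the pieces to the theorem for a divisor `g` of `a + b`
-/

set_option autoImplicit false

namespace Pool.Agent.Helper81.ZG

open Finset Pool.Agent.Helper18.ZE

/-- The estimate for `m`. -/
theorem m_bound {B x y lD U t Q L lY : ℝ} (hQ : Q = Real.exp x) (hU : U = Real.exp (x / 9)) (hx : 16384 ≤ x)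
    (hyx : y ≤ 2 * x) (hB0 : 0 ≤ B) (hy0 : 0 ≤ y) (hBy : 32768 * B ≤ y) (ht : U ≤ t) (hL : L ≤ 128 * B * y * Q)
    (hlY : lY ≤ 32 * B * y) (hlD : lD ≤ lY + 4 * L / t + B * y) : 2 * (lD + x) ≤ Q := by
  have h1 : 2 * x ^ 2 ≤ U := by
    rw [hU]
    exact Pool.Agent.Helper84.ZE.two_sq_le_exp (by linarith)
  have hU0 : 0 < U := by rw [hU]; exact Real.exp_pos _
  have hQ0 : 0 < Q := by rw [hQ]; exact Real.exp_pos _
  have ht0 : 0 < t := by linarith
  have hU8 : 8 ≤ U := by nlinarith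
  have hQU : 8 * U ≤ Q := by
    have h2 : Q = U ^ 9 := by
      rw [hQ, hU, ← Real.exp_nat_mul]
      congr 1
      push_cast
      ring
    have h3 : (8 : ℝ) ≤ U ^ 8 := by
      calc (8 : ℝ) ≤ U := hU8
        _ = U ^ 1 := (pow_one U).symm
        _ ≤ U ^ 8 := pow_le_pow_right₀ (by linarith) (by norm_num)
    rw [h2]
    calc 8 * U ≤ U ^ 8 * U := mul_le_mul_of_nonneg_right h3 hU0.le
      _ = U ^ 9 := by ring
  have hBx : B * y ≤ x ^ 2 / 8192 := by
    have h2 : B ≤ y / 32768 := by linarith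
    calc B * y ≤ y / 32768 * y := mul_le_mul_of_nonneg_right h2 hy0
      _ = y ^ 2 / 32768 := by ring
      _ ≤ (2 * x) ^ 2 / 32768 := by
          apply div_le_div_of_nonneg_right _ (by norm_num)
          exact pow_le_pow_left₀ hy0 hyx 2
      _ = x ^ 2 / 8192 := by ring
  have h4 : 4 * L / t ≤ Q / 16 := by
    rw [div_le_iff₀ ht0]
    have h5 : 4 * L ≤ 512 * (B * y) * Q := by nlinarith
    have h6 : 512 * (B * y) * Q ≤ x ^ 2 / 16 * Q := by
      apply mul_le_mul_of_nonneg_right _ hQ0.le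
      linarith
    have h7 : x ^ 2 / 16 ≤ t / 16 := by
      have : 0 ≤ x ^ 2 := sq_nonneg x
      linarith
    have h8 := mul_le_mul_of_nonneg_right h7 hQ0.le
    linarith
  have h9 : x ≤ x ^ 2 := by nlinarith
  nlinarith

theorem main_core {a b g E B r s0 K : ℕ} {L : ℝ} {δ : ℤ} (hδ : δ = 1 ∨ δ = -1) (hE : 1 ≤ E) (hEB : E ≤ B) (hr : r + 1 = 2048 * B)
    (hs0 : s0 = 512 * B) (hK : K = 16 * B)
    (ha : 0 < a) (hb : 0 < b) (hab : a.Coprime b) (hg0 : g ≠ 0) (hgc : (a * b).Coprime g) (hgle : g ≤ a + b)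
    (hg : (g : ℤ) ∣ a + δ * b) (hL : L = Real.log (a + b : ℕ))
    (hLB : 32768 * B ≤ Real.log L) (hL0 : 1 ≤ L)
    (hrad : ((∏ p ∈ (a * b * g).primeFactors, p : ℕ) : ℝ) ≤ L ^ E)
    (hcl : ∀ Q : ℕ, L ≤ 128 * B * Real.log L * Q → 64 * B * Real.log L * Q ≤ L →
      ∃ (Y : ℕ) (T : Finset (ℕ × ℕ)), 1 ≤ Y ∧
        Real.log Y ≤ Real.log (modulus g Q) - Real.log L / 2 ∧ Q ≤ T.card ^ 9 ∧
        (∀ x ∈ T, ∀ y ∈ T, x.1 = y.1 → x = y) ∧
        (∀ x ∈ T, x.1 < Q ∧ x.2.Prime ∧ x.2 ≤ Y ∧ 4 * Q < x.2 ∧ x.2.Coprime (a * b * g)) ∧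
        ∀ x ∈ T, ∀ y ∈ T, (∀ p ∈ (a * b).primeFactors, box a b Q K x.1 p = box a b Q K y.1 p) ∧
          theta a b Q x.1 x.2 ≡ theta a b Q y.1 y.2 [MOD modulus g Q])
    (hsel : ∀ (Q : ℕ) (T : Finset ℕ) (Δ m : ℕ), L ≤ (Q : ℝ) ^ 2 → Q.Prime → (∀ n ∈ T, n < Q) →
      Q ≤ T.card ^ 9 → Δ ≠ 0 → Δ ≤ Q ^ m → 2 * (m : ℝ) * Real.log Q ≤ Q →
      ∃ q : ℕ, q.Prime ∧ Q < q ∧ q ≤ 4 * Q ∧ ¬ q ∣ a * b ∧ ¬ q ∣ Δ ∧ Helper48.ZEF.Good Q (r + 1) T q)
    (hnum : ∀ (lP lY lN : ℝ) (Q q T0 T1 : ℕ), L ≤ 128 * B * Real.log L * Q → Q < q →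
      0 ≤ lN → lN ≤ B * Real.log L → 4 * Q * lP ≤ L → 0 ≤ lY → lY ≤ lP - Real.log L / 2 →
      T0 ≤ ((r + 1) * s0) * ((r + 1) * s0 * r) ^ r * T1 → 1 ≤ T1 → T1 ≤ q ^ r →
      Real.log ((T0 + T1).factorial : ℝ) +
        T0 * ((3 * ((r + 1) * (q * (s0 + 1))) + 2 * (s0 + 1)) * Real.log 2) +
        T1 * ((r + 1) * (q * (s0 + 1)) * Real.log 2 + ((r + 1) * (q * (s0 + 1)) * lY + 2 * (s0 + 1) * L +
          (2 * ((r + 1) * (q * (s0 + 1))) / K + 2) * lN)) <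
        ((r + 1) * s0 - 1) * q * T1 * lP) : False := by
  classical
  have hB : 1 ≤ B := hE.trans hEB
  have hBR : (1 : ℝ) ≤ B := by exact_mod_cast hB
  have hEBR : (E : ℝ) ≤ B := by exact_mod_cast hEB
  set y := Real.log L with hy
  have hy0 : 8192 ≤ y := by nlinarith
  have hLe : Real.exp y = L := by rw [hy, Real.exp_log (by linarith)]
  have h1 : (128 * B * y) ^ 2 ≤ L := by
    have h2 := pow_four_le_exp y (by linarith)
    rw [hLe] at h2
    have h3 : 128 * B * y ≤ y ^ 2 := by nlinarith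
    have h4 : (128 * B * y) ^ 2 ≤ (y ^ 2) ^ 2 := pow_le_pow_left₀ (by positivity) h3 2
    calc (128 * B * y) ^ 2 ≤ (y ^ 2) ^ 2 := h4
      _ = y ^ 4 := by ring
      _ ≤ L := h2
  have hBy : 0 < (64 * B * y : ℝ) := by positivity
  obtain ⟨Q, hQp, hQ1, hQ2⟩ := exists_Q (L / (64 * B * y)) (by
    rw [le_div_iff₀ hBy]
    nlinarith)
  have hQL1 : L ≤ 128 * B * y * Q := by
    rw [div_div, div_lt_iff₀ (by positivity)] at hQ1
    nlinarith
  have hQL2 : 64 * B * y * Q ≤ L := by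
    rw [le_div_iff₀ hBy] at hQ2
    nlinarith
  have hQ0 : 0 < Q := hQp.pos
  have hQR : (0 : ℝ) < Q := by exact_mod_cast hQ0
  have hQbig : 128 * B * y ≤ Q := by
    by_contra h
    push Not at h
    have h5 : (0:ℝ) < 128 * B * y := by positivity
    nlinarith
  have hLQ : L ≤ (Q : ℝ) ^ 2 := by
    have h5 : (0:ℝ) ≤ Q := Nat.cast_nonneg _
    calc L ≤ 128 * B * y * Q := hQL1
      _ ≤ Q * Q := mul_le_mul_of_nonneg_right hQbig h5
      _ = (Q : ℝ) ^ 2 := by ring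
  obtain ⟨Y, T, hY1, hYl, hTc, hTinj, hTp, hTc'⟩ := hcl Q hQL1 hQL2
  have hcard : (T.image Prod.fst).card = T.card := by
    apply Finset.card_image_of_injOn
    intro x hx z hz hxz
    exact hTinj x hx z hz hxz
  -- the radicals
  have hlrad : Real.log (∏ p ∈ (a * b * g).primeFactors, p : ℕ) ≤ E * y := by
    have h10 := Real.log_le_log (by exact_mod_cast rad_pos _) hrad
    rwa [Real.log_pow] at h10
  have hlrad2 : Real.log (∏ p ∈ (a * b).primeFactors, p : ℕ) ≤ E * y := by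
    refine le_trans (Real.log_le_log (by exact_mod_cast rad_pos _) ?_) hlrad
    have h1 : (∏ p ∈ (a * b).primeFactors, p) ≤ ∏ p ∈ (a * b * g).primeFactors, p := by
      refine Finset.prod_le_prod_of_subset_of_one_le' (Nat.primeFactors_mono (Dvd.intro _ rfl) (by positivity)) ?_
      intro p hp _
      exact (Nat.prime_of_mem_primeFactors hp).one_lt.le
    exact_mod_cast h1
  -- a close pair
  have hT2 : 2 ≤ T.card := by
    by_contra h
    have h2 : T.card ≤ 1 := by omega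
    have h3 : T.card ^ 9 ≤ 1 := by
      calc T.card ^ 9 ≤ 1 ^ 9 := Nat.pow_le_pow_left h2 9
        _ = 1 := one_pow 9
    have := hQp.two_le
    omega
  obtain ⟨u, hu, v, hv, huv, hclose⟩ := exists_close hQ0 T (fun x hx => (hTp x hx).1) hTinj hT2
  obtain ⟨Δ, hΔ0, hΔl, hΔ⟩ := pair_delta (lN := E * y) ha hb hab hQ0 hL hL0 hlrad2 (by
      calc 64 * ((Q : ℝ) * (E * y)) ≤ 64 * ((Q : ℝ) * (B * y)) := by
            have : (E : ℝ) * y ≤ B * y := mul_le_mul_of_nonneg_right hEBR (by linarith)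
            nlinarith
        _ = 64 * B * y * Q := by ring
        _ ≤ L := hQL2) (hTp u hu).1.le (hTp v hv).1.le huv
      (Nat.Coprime.coprime_dvd_right (dvd_mul_right _ _) (hTp u hu).2.2.2.2)
      (Nat.Coprime.coprime_dvd_right (dvd_mul_right _ _) (hTp v hv).2.2.2.2)
      (hTp u hu).2.1.one_lt.le (hTp v hv).2.1.one_lt.le (hTp u hu).2.2.1 (hTp v hv).2.2.1
  set x : ℝ := Real.log Q with hx
  have hQx : (Q : ℝ) = Real.exp x := by rw [hx, Real.exp_log hQR]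
  have hyx : y ≤ 2 * x := by
    have := Real.log_le_log (by linarith) hLQ
    rwa [Real.log_pow] at this
  have hx0 : 0 < x := by linarith
  have hTR : (0:ℝ) < T.card := by exact_mod_cast (by omega : 0 < T.card)
  have hroot : Real.exp (x / 9) ≤ T.card := by
    have h1 : (Q:ℝ) ≤ (T.card : ℝ) ^ 9 := by exact_mod_cast hTc
    have h2 : Real.exp (x / 9) ^ 9 ≤ (T.card : ℝ) ^ 9 := by
      rw [← Real.exp_nat_mul]
      have h3 : ((9 : ℕ) : ℝ) * (x / 9) = x := by push_cast; ring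
      rw [h3, ← hQx]
      exact h1
    exact le_of_pow_le_pow_left₀ (by norm_num) hTR.le h2
  have hgL : Real.log g ≤ L := by
    rw [hL]
    exact Real.log_le_log (by exact_mod_cast Nat.pos_of_ne_zero hg0)
      (by exact_mod_cast hgle)
  have hmod : 4 * Q * Real.log (modulus g Q) ≤ L :=
    (Pool.Agent.Helper78.ZE.log_modulus_le hg0).trans hgL
  have hlY : Real.log Y ≤ 32 * B * y := by
    have h2 : 4 * Q * Real.log (modulus g Q) ≤ 4 * Q * (32 * B * y) := by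
      calc 4 * Q * Real.log (modulus g Q) ≤ L := hmod
        _ ≤ 128 * B * y * Q := hQL1
        _ = 4 * Q * (32 * B * y) := by ring
    have h3 := le_of_mul_le_mul_left h2 (by positivity)
    linarith
  have hfrac : ((v.1 - u.1 : ℕ) : ℝ) / Q * (2 * L) ≤ 4 * L / T.card := by
    have h2 : ((v.1 - u.1 : ℕ) : ℝ) * ((T.card : ℝ) - 1) ≤ Q := by
      have h3 : (((v.1 - u.1) * (T.card - 1) : ℕ) : ℝ) ≤ Q := by exact_mod_cast hclose
      rw [Nat.cast_mul, Nat.cast_sub (by omega : 1 ≤ T.card)] at h3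
      simpa using h3
    have h4 : ((v.1 - u.1 : ℕ) : ℝ) * T.card ≤ 2 * Q := by
      have h5 : (2 : ℝ) ≤ T.card := by exact_mod_cast hT2
      have h6 : (T.card : ℝ) ≤ 2 * ((T.card : ℝ) - 1) := by linarith
      calc ((v.1 - u.1 : ℕ) : ℝ) * T.card ≤ ((v.1 - u.1 : ℕ) : ℝ) * (2 * ((T.card : ℝ) - 1)) :=
            mul_le_mul_of_nonneg_left h6 (Nat.cast_nonneg _)
        _ = 2 * (((v.1 - u.1 : ℕ) : ℝ) * ((T.card : ℝ) - 1)) := by ring
        _ ≤ 2 * Q := by linarith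
    rw [le_div_iff₀ hTR]
    calc ((v.1 - u.1 : ℕ) : ℝ) / Q * (2 * L) * T.card = ((v.1 - u.1 : ℕ) : ℝ) * T.card / Q * (2 * L) := by ring
      _ ≤ 2 * (2 * L) := by
          apply mul_le_mul_of_nonneg_right _ (by linarith)
          rw [div_le_iff₀ hQR]
          exact h4
      _ = 4 * L := by ring
  have hmb := m_bound (B := B) (x := x) (y := y) (lD := Real.log Δ) (t := T.card) (L := L) (lY := Real.log Y)
    hQx rfl (by nlinarith) hyx (by linarith) (by linarith) (by exact_mod_cast hLB) hroot hQL1 hlY (by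
      have : (E : ℝ) * y ≤ B * y := mul_le_mul_of_nonneg_right hEBR (by linarith)
      linarith)
  set m : ℕ := ⌈Real.log Δ / x⌉₊ with hm
  have hΔR : (1 : ℝ) ≤ Δ := by exact_mod_cast Nat.one_le_iff_ne_zero.2 hΔ0
  have hm1 : Real.log Δ ≤ m * x := by
    have := Nat.le_ceil (Real.log Δ / x)
    rwa [div_le_iff₀ hx0] at this
  have hm2 : (m : ℝ) * x ≤ Real.log Δ + x := by
    have h2 := Nat.ceil_lt_add_one (div_nonneg (Real.log_nonneg hΔR) hx0.le)
    rw [← hm] at h2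
    have h3 := mul_le_mul_of_nonneg_right h2.le hx0.le
    have h4 : (Real.log Δ / x + 1) * x = Real.log Δ + x := by field_simp
    linarith
  have hΔm : Δ ≤ Q ^ m := by
    have h2 : Real.log Δ ≤ Real.log ((Q : ℝ) ^ m) := by rw [Real.log_pow]; exact hm1
    have h3 : (Δ : ℝ) ≤ (Q : ℝ) ^ m := (Real.log_le_log_iff (by linarith) (by positivity)).1 h2
    exact_mod_cast h3
  obtain ⟨q, hqp, hqQ, hqQ4, hqN, hqΔ, hgood⟩ := hsel Q (T.image Prod.fst) Δ m hLQ hQp (by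
      intro m hm
      obtain ⟨x, hx, rfl⟩ := Finset.mem_image.1 hm
      exact (hTp x hx).1) (by rw [hcard]; exact hTc) hΔ0 hΔm (by linarith)
  obtain ⟨z, hz, hD, hzne⟩ := select (r := r) (by omega) hQ0 T
    (fun w => ((theta a b Q w.1 w.2 : ℕ) : ZMod q)) hgood hu hv (fun h => hqΔ (hΔ q hqp hqN h))
  have hsq : (r + 1) * s0 < q := by
    have h5 : (((r + 1) * s0 : ℕ) : ℝ) < q := by
      have h6 : ((Q : ℕ) : ℝ) < q := by exact_mod_cast hqQ
      refine lt_of_le_of_lt ?_ h6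
      refine le_trans ?_ hQbig
      rw [hr, hs0]
      push_cast
      nlinarith
    exact_mod_cast h5
  obtain ⟨rows, hrows, hdet, hdvd⟩ := det_core (K := K) (g := g) hδ ha hb hab hg0 hgc hg hQ0 (by omega) (by omega) (by omega) hqp
    hqQ4 hqN hsq
    (n := fun i => (z i).1) (s := fun i => (z i).2) (fun i => (hTp _ (hz i)).1) hD (fun i => (hTp _ (hz i)).2.2.2.2)
    (fun i h => by
      have h6 := (Nat.prime_dvd_prime_iff_eq hqp (hTp _ (hz i)).2.1).1 h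
      have h7 := (hTp _ (hz i)).2.2.2.1
      omega) hzne
    (fun i => (hTc' _ (hz i) _ (hz 0)).1) (fun i => (hTc' _ (hz i) _ (hz 0)).2)
  have hPpos : 0 < modulus g Q :=
    Finset.prod_pos fun p hp => pow_pos (Nat.prime_of_mem_primeFactors hp).pos _
  set n : Fin (r + 1) → ℕ := fun i => (z i).1 with hn
  set s : Fin (r + 1) → ℕ := fun i => (z i).2 with hs
  have hup := Pool.Agent.Helper45.ZE.det_le rows (numS δ a b Q K (q * (s0 + 1)) (s0 + 1) r n s)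
    ((r + 1) * (q * (s0 + 1)))
    (2 * ((r + 1) * (q * (s0 + 1))) + 2 * (s0 + 1))
    (Real.exp ((r + 1) * (q * (s0 + 1) : ℕ) * Real.log Y + 2 * (s0 + 1 : ℕ) * Real.log (a + b : ℕ) +
      (2 * ((r + 1) * (q * (s0 + 1) : ℕ)) / K + 2) * Real.log (∏ p ∈ (a * b * g).primeFactors, p : ℕ)))
    (fun c => (hrows c).1.le) (fun c => Pool.Agent.Helper44.ZE.row_le hQ0 (fun i => (hTp _ (hz i)).1.le) (hrows c))
    (Real.exp_pos _).le
    (fun c => by
      rw [abs_numS hδ]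
      exact num_le ha hb hab hg0 hQ0 (by omega) hY1 (fun i => (hTp _ (hz i)).2.2.1) (hrows c)
        (fun i p hp => (hTc' _ (hz i) _ (hz 0)).1 p hp))
  set T0 := (Ex r q ((r + 1) * s0)).card with hT0
  set T1 := (Rx r q).card with hT1
  set d := (Matrix.of fun c d => entry (numS δ a b Q K (q * (s0 + 1)) (s0 + 1) r n s) (rows c) d).det with hd
  have hlow : (((modulus g Q : ℕ) : ℝ)) ^ (((r + 1) * s0 - 1) * q * T1) ≤ ((|d| : ℤ) : ℝ) := by
    have h8 := Int.le_of_dvd (abs_pos.2 hdet) ((dvd_abs _ _).2 hdvd)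
    have h9 : (((modulus g Q : ℤ) ^ (((r + 1) * s0 - 1) * q * T1) : ℤ) : ℝ) ≤ ((|d| : ℤ) : ℝ) := by
      exact_mod_cast h8
    simpa using h9
  have hPR : (0 : ℝ) < (modulus g Q : ℕ) := by exact_mod_cast hPpos
  have hlog := Real.log_le_log (pow_pos hPR _) (hlow.trans hup)
  have hT1pos : 1 ≤ T1 := by
    rw [hT1, Nat.one_le_iff_ne_zero, Finset.card_ne_zero]
    refine ⟨fun _ => 0, ?_⟩
    simp [Rx]
  have hnum' := hnum (Real.log (modulus g Q : ℕ)) (Real.log Y)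
    (Real.log (∏ p ∈ (a * b * g).primeFactors, p : ℕ)) Q q T0 T1 hQL1 hqQ (Real.log_natCast_nonneg _)
    (hlrad.trans (mul_le_mul_of_nonneg_right hEBR (by linarith))) hmod (Real.log_natCast_nonneg _) hYl
    (Pool.Agent.Helper45.ZE.card_Ex_le (by omega) hqp.pos) hT1pos
      (Pool.Agent.Helper45.ZE.card_Rx_le (by omega) hqp.pos)
  have hlog2 : Real.log (((T0 + T1).factorial : ℝ) *
      (2 ^ ((r + 1) * (q * (s0 + 1)) + (2 * ((r + 1) * (q * (s0 + 1))) + 2 * (s0 + 1)))) ^ T0 *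
        (2 ^ ((r + 1) * (q * (s0 + 1))) * Real.exp ((r + 1) * (q * (s0 + 1) : ℕ) * Real.log Y +
          2 * (s0 + 1 : ℕ) * Real.log (a + b : ℕ) +
      (2 * ((r + 1) * (q * (s0 + 1) : ℕ)) / K + 2) * Real.log (∏ p ∈ (a * b * g).primeFactors, p : ℕ))) ^ T1) =
      Real.log ((T0 + T1).factorial : ℝ) +
        T0 * ((3 * ((r + 1) * (q * (s0 + 1))) + 2 * (s0 + 1)) * Real.log 2) +
        T1 * ((r + 1) * (q * (s0 + 1)) * Real.log 2 + ((r + 1) * (q * (s0 + 1)) * Real.log Y + 2 * (s0 + 1) * L +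
          (2 * ((r + 1) * (q * (s0 + 1))) / K + 2) * Real.log (∏ p ∈ (a * b * g).primeFactors, p : ℕ))) := by
    have hf : ((T0 + T1).factorial : ℝ) ≠ 0 := by exact_mod_cast Nat.factorial_ne_zero _
    rw [Real.log_mul (by positivity) (by positivity), Real.log_mul hf (by positivity), Real.log_pow, Real.log_pow,
      Real.log_pow, Real.log_mul (by positivity) (Real.exp_pos _).ne', Real.log_pow, Real.log_exp, ← hL]
    push_cast
    ring
  rw [hlog2, Real.log_pow] at hlog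
  refine absurd hlog (not_le.2 ?_)
  refine hnum'.trans_le (le_of_eq ?_)
  have h11 : 1 ≤ (r + 1) * s0 := Nat.mul_pos (Nat.succ_pos r) (by omega)
  push_cast [Nat.cast_sub h11]
  ring

/-- The theorem, uniformly in `E ≤ B`: `g` is a divisor of `a + b` (`δ = 1`) or of `a - b` (`δ = -1`) with
`E log (a + b) ≤ B log g`. -/
theorem main_uniform : ∃ D : ℕ, ∀ (E B a b g : ℕ) (δ : ℤ), (δ = 1 ∨ δ = -1) → 1 ≤ E → E ≤ B → 0 < a → 0 < b →
    a.Coprime b → g ≠ 0 → g ≤ a + b → (g : ℤ) ∣ a + δ * b →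
    E * Real.log (a + b : ℕ) ≤ B * Real.log g →
    ((B + 1 : ℕ) : ℝ) ^ (D * B) ≤ Real.log (Real.log (a + b : ℕ)) →
    (Real.log (a + b : ℕ)) ^ E < ((∏ p ∈ (a * b * g).primeFactors, p : ℕ) : ℝ) := by
  obtain ⟨D1, hD1⟩ := exists_clusterU_of Pool.Agent.Helper62.ZE.pow_omega_leU
  obtain ⟨D2, hD2⟩ := exists_primeU
  obtain ⟨D3, hD3⟩ := Pool.Agent.Helper48.ZE.final_ineqU
  refine ⟨D1 + D2 + D3 + 16, fun E B a b g δ hδ hE hEB ha hb hab hg0 hgle hg hgL hDL => ?_⟩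
  have hB : 1 ≤ B := hE.trans hEB
  have hb2 : (2 : ℝ) ≤ ((B + 1 : ℕ) : ℝ) := by
    have : 2 ≤ B + 1 := by omega
    exact_mod_cast this
  have hb1 : (1 : ℝ) ≤ ((B + 1 : ℕ) : ℝ) := by linarith
  set L := Real.log (a + b : ℕ) with hL
  have hLn : 0 ≤ L := Real.log_natCast_nonneg _
  have hmono : ∀ m : ℕ, m ≤ (D1 + D2 + D3 + 16) * B → ((B + 1 : ℕ) : ℝ) ^ m ≤ Real.log L := fun m hm =>
    (pow_le_pow_right₀ hb1 hm).trans hDL
  have hlog1 : 1 ≤ Real.log L := by simpa using hmono 0 (Nat.zero_le _)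
  have hL1 : 1 ≤ L := by
    by_contra h
    push Not at h
    have := Real.log_nonpos hLn h.le
    linarith
  have h8192 : 32768 * (B : ℝ) ≤ Real.log L := by
    have h1 : (32768 * (B : ℝ)) ≤ ((B + 1 : ℕ) : ℝ) ^ 16 := by
      have h2 : (32768 : ℝ) ≤ ((B + 1 : ℕ) : ℝ) ^ 15 := by
        calc (32768 : ℝ) = 2 ^ 15 := by norm_num
          _ ≤ _ := pow_le_pow_left₀ (by norm_num) hb2 15
      have h3 : (B : ℝ) ≤ ((B + 1 : ℕ) : ℝ) := by exact_mod_cast Nat.le_succ B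
      calc 32768 * (B : ℝ) ≤ ((B + 1 : ℕ) : ℝ) ^ 15 * ((B + 1 : ℕ) : ℝ) :=
            mul_le_mul h2 h3 (Nat.cast_nonneg _) (by positivity)
        _ = _ := by ring
    exact h1.trans (hmono 16 (by nlinarith))
  by_contra hlt
  push Not at hlt
  obtain ⟨r, hr⟩ : ∃ r, r + 1 = 2048 * B := ⟨2048 * B - 1, by omega⟩
  have hNne : a * b ≠ 0 := by positivity
  have hgc : (a * b).Coprime g := by
    rw [Nat.coprime_comm, Nat.coprime_mul_iff_right]
    have h1 : IsCoprime (a : ℤ) b := Nat.isCoprime_iff_coprime.2 hab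
    have hδa : IsCoprime δ (a : ℤ) := ⟨δ, 0, by rcases hδ with rfl | rfl <;> norm_num⟩
    have h2 : IsCoprime ((a : ℤ) + δ * b) a := by
      have h3 : IsCoprime (δ * (b : ℤ) + a * 1) a :=
        IsCoprime.add_mul_left_left (IsCoprime.mul_left hδa h1.symm) 1
      have h4 : δ * (b : ℤ) + a * 1 = a + δ * b := by ring
      rwa [h4] at h3
    have h5 : IsCoprime ((a : ℤ) + δ * b) b := by
      have h3 : IsCoprime ((a : ℤ) + b * δ) b := IsCoprime.add_mul_left_left h1 δ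
      rwa [mul_comm (b : ℤ) δ] at h3
    exact ⟨Nat.isCoprime_iff_coprime.1 (IsCoprime.of_isCoprime_of_dvd_left h2 hg),
      Nat.isCoprime_iff_coprime.1 (IsCoprime.of_isCoprime_of_dvd_left h5 hg)⟩
  refine main_core (E := E) (B := B) (g := g) (r := r) (s0 := 512 * B) (K := 16 * B) hδ hE hEB hr rfl rfl ha hb hab hg0 hgc hgle hg
    hL h8192 hL1 hlt ?_ ?_ ?_
  · intro Q h1 h2
    exact hD1 E B a b g Q L hE hEB ha hb hg0 hgc hgle hL hgL hL1 (hmono _ (Nat.mul_le_mul_right B (by omega))) hlt h1 h2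
  · intro Q T Δ m hLQ hQ hT hTc hΔ hΔm hm
    have hQ0 : (0 : ℝ) < Q := by exact_mod_cast hQ.pos
    refine hD2 B r Q T (a * b) Δ m hB hr ?_ hQ hT hTc hNne ?_ hΔ hΔm hm
    · have h1 : Real.log L ≤ 2 * Real.log Q := by
        have := Real.log_le_log (by linarith) hLQ
        rwa [Real.log_pow] at this
      have h2 : 2 * ((B + 1 : ℕ) : ℝ) ^ (D2 * B) ≤ ((B + 1 : ℕ) : ℝ) ^ (D2 * B + 1) := by
        rw [pow_succ, mul_comm]
        exact mul_le_mul_of_nonneg_left hb2 (by positivity)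
      have h3 := hmono (D2 * B + 1) (by nlinarith)
      linarith
    · have h4 : ((∏ p ∈ (a * b).primeFactors, p : ℕ) : ℝ) ≤ ((Q ^ (2 * B) : ℕ) : ℝ) := by
        refine (prod_le_of ha hb hg0 hL1 hEB hlt).trans ?_
        rw [Nat.cast_pow, pow_mul]
        exact pow_le_pow_left₀ hLn hLQ B
      exact_mod_cast h4
  · intro lP lY lN Q q T0 T1 h1 h2 h3 h4 h5 h6 h7 h8 h9 h10
    exact hD3 B L lP lY lN Q q r (512 * B) (16 * B) T0 T1 hB hL1 (hmono _ (Nat.mul_le_mul_right B (by omega))) hr rfl rfl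
      h1 h2 h3 h4 h5 h6 h7 h8 h9 h10

end Pool.Agent.Helper81.ZG
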