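import Pool.Agent.Helper81.ZG.Est
import Pool.Agent.Helper18.ZE.Main

/-!
# ZG: the determinant for a divisor `g` of `a + b` or of `a - b`: copy of `core` of Helper18/ZE/Main.lean
-/

set_option autoImplicit false

namespace Pool.Agent.Helper81.ZG

open Finset Pool.Agent.Helper18.ZE Pool.Agent.Helper36.ZE Pool.Agent.Helper94.ZE Pool.Agent.Helper41.ZE
  Pool.Agent.Helper78.ZE

/-- The number `num` with the sign `δ ^ f`. -/
def numS (δ : ℤ) (a b Q K C M r : ℕ) (n s : Fin (r + 1) → ℕ) (v : Row r) : ℤ :=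
  δ ^ v.2 * num a b Q K C M r n s v

theorem abs_numS {δ : ℤ} (hδ : δ = 1 ∨ δ = -1) (a b Q K C M r : ℕ) (n s : Fin (r + 1) → ℕ) (v : Row r) :
    |numS δ a b Q K C M r n s v| = |num a b Q K C M r n s v| := by
  unfold numS
  rcases hδ with rfl | rfl
  · rw [one_pow, one_mul]
  · rw [abs_mul, abs_pow, abs_neg, abs_one, one_pow, one_mul]

/-- The determinant is different from `0` and divisible by a high power of `P`. -/
theorem det_core {a b g Q q r s0 K : ℕ} {δ : ℤ} (hδ : δ = 1 ∨ δ = -1) (ha : 0 < a) (hb : 0 < b) (hab : a.Coprime b)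
    (hg0 : g ≠ 0) (hgab : (a * b).Coprime g) (hg : (g : ℤ) ∣ a + δ * b) (hQ : 0 < Q) (hr : 1 ≤ r) (hK : 0 < K)
    (hs0 : 1 ≤ s0) (hq : q.Prime) (hqQ : q ≤ 4 * Q) (hqN : ¬ q ∣ a * b) (hsq : (r + 1) * s0 < q)
    {n s : Fin (r + 1) → ℕ} (hn : ∀ i, n i < Q) (hD : Dense r Q q n) (hsc : ∀ i, (s i).Coprime (a * b * g))
    (hsq' : ∀ i, ¬ q ∣ s i)
    (hne : ∃ i, ((theta a b Q (n i) (s i) : ℕ) : ZMod q) ≠ (theta a b Q (n 0) (s 0) : ℕ))
    (hbox : ∀ i, ∀ p ∈ (a * b).primeFactors, box a b Q K (n i) p = box a b Q K (n 0) p)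
    (hθ : ∀ i, theta a b Q (n i) (s i) ≡ theta a b Q (n 0) (s 0) [MOD modulus g Q]) :
    ∃ rows : Col r q ((r + 1) * s0) → Row r, (∀ c, IsRow r Q (q * (s0 + 1)) (s0 + 1) n (rows c)) ∧
      (Matrix.of fun c d => entry (numS δ a b Q K (q * (s0 + 1)) (s0 + 1) r n s) (rows c) d).det ≠ 0 ∧
      ((modulus g Q : ℤ) ^ (((r + 1) * s0 - 1) * q * (Rx r q).card)) ∣
        (Matrix.of fun c d => entry (numS δ a b Q K (q * (s0 + 1)) (s0 + 1) r n s) (rows c) d).det := by
  classical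
  have : Fact q.Prime := ⟨hq⟩
  have hn' : ∀ i, n i ≤ Q := fun i => (hn i).le
  have hqa : ¬ q ∣ a := fun h => hqN (dvd_mul_of_dvd_left h b)
  have hqb : ¬ q ∣ b := fun h => hqN (dvd_mul_of_dvd_right h a)
  have ha0 : (a : ZMod q) ≠ 0 := by rwa [Ne, ZMod.natCast_eq_zero_iff]
  have hb0 : (b : ZMod q) ≠ 0 := by rwa [Ne, ZMod.natCast_eq_zero_iff]
  -- the rows
  have hRq : ∀ p ∈ (a * b).primeFactors, IsUnit ((p : ℕ) : ZMod q) := by
    intro p hp
    rw [isUnit_iff_ne_zero, Ne, ZMod.natCast_eq_zero_iff]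
    intro h
    have h1 := (Nat.prime_dvd_prime_iff_eq hq (Nat.prime_of_mem_primeFactors hp)).1 h
    exact hqN (h1 ▸ Nat.dvd_of_mem_primeFactors hp)
  obtain ⟨u, hu, hnum⟩ := num_eq (C := q * (s0 + 1)) (M := s0 + 1) (n := n) (s := s) ha hb hab hQ hK hn' hbox hRq
    (-(a : ZMod q) / b) (by field_simp)
  have hθ0 : ∀ i, (theta a b Q (n i) (s i) : ZMod q) ≠ 0 := by
    intro i
    unfold theta
    rw [Nat.cast_mul, Nat.cast_prod]
    refine mul_ne_zero ?_ (Finset.prod_ne_zero_iff.2 fun p hp => ?_)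
    · rw [Ne, ZMod.natCast_eq_zero_iff]
      exact hsq' i
    · rw [Nat.cast_pow]
      exact pow_ne_zero _ (hRq p hp).ne_zero
  have hδ0 : ((δ : ℤ) : ZMod q) ≠ 0 := by
    rcases hδ with rfl | rfl
    · simp
    · simp
  obtain ⟨rows, hrows, hdet⟩ := exists_rows {v : Row r | IsRow r Q (q * (s0 + 1)) (s0 + 1) n v}
    (fun v (c : Col r q ((r + 1) * s0)) =>
      entry (fun v => u * (∏ i, (theta a b Q (n i) (s i) : ZMod q) ^ v.1 i) * ((δ : ZMod q) * (-(a : ZMod q) / b)) ^ v.2) v c)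
    (fun x hx => by
      obtain ⟨v, hv, h⟩ := zero_estimate hr hQ n hn' hD hs0 hsq (fun i => (theta a b Q (n i) (s i) : ZMod q)) hθ0
        ((δ : ZMod q) * (-(a : ZMod q) / b)) u (mul_ne_zero hδ0 (div_ne_zero (neg_ne_zero.2 ha0) hb0)) (Or.inr hne)
        hu.ne_zero x hx
      exact ⟨v, hv, h⟩)
  refine ⟨rows, hrows, ?_, ?_⟩
  · intro h0
    apply hdet
    have h1 : (Matrix.of fun c d => entry (fun v => u * (∏ i, (theta a b Q (n i) (s i) : ZMod q) ^ v.1 i) *
          ((δ : ZMod q) * (-(a : ZMod q) / b)) ^ v.2) (rows c) d) =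
        (Int.castRingHom (ZMod q)).mapMatrix
          (Matrix.of fun c d => entry (numS δ a b Q K (q * (s0 + 1)) (s0 + 1) r n s) (rows c) d) := by
      ext c d
      rw [RingHom.mapMatrix_apply, Matrix.map_apply, Matrix.of_apply, Matrix.of_apply]
      rcases d with p | a'
      · simp only [entry]
        simp
      · simp only [entry]
        rw [mul_pow, mul_left_comm, ← hnum (rows c) (hrows c)]
        unfold numS
        push_cast
        simp
    rw [h1, ← RingHom.map_det, h0, map_zero]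
  · set P := modulus g Q with hP
    set R := ZMod (P ^ (((r + 1) * s0 - 1) * q)) with hR
    have hPc : ∀ m : ℕ, m.Coprime g → IsUnit ((m : ℕ) : R) := by
      intro m hm
      rw [ZMod.isUnit_iff_coprime]
      refine Nat.Coprime.pow_right _ (Nat.Coprime.prod_right fun p hp => ?_)
      refine Nat.Coprime.pow_right _ ?_
      exact Nat.Coprime.coprime_dvd_right (Nat.dvd_of_mem_primeFactors hp) hm
    have hac : a.Coprime g := Nat.Coprime.coprime_dvd_left (dvd_mul_right a b) hgab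
    have hbc : b.Coprime g := Nat.Coprime.coprime_dvd_left (dvd_mul_left b a) hgab
    have hRP : ∀ p ∈ (a * b).primeFactors, IsUnit ((p : ℕ) : R) := by
      intro p hp
      refine hPc p (Nat.Coprime.coprime_dvd_left (Nat.dvd_of_mem_primeFactors hp) ?_)
      exact Nat.Coprime.mul_left hac hbc
    have hbu : IsUnit ((b : ℕ) : R) := hPc b hbc
    obtain ⟨bu, hbu'⟩ := hbu
    obtain ⟨u', hu', hnum'⟩ := num_eq (C := q * (s0 + 1)) (M := s0 + 1) (n := n) (s := s) ha hb hab hQ hK hn' hbox hRP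
      (-(a : R) * (bu⁻¹ : Rˣ)) (by rw [mul_assoc, ← hbu', Units.inv_mul, mul_one])
    have hθu : ∀ i, IsUnit ((theta a b Q (n i) (s i) : ℕ) : R) := by
      intro i
      refine hPc _ ?_
      unfold theta
      refine Nat.Coprime.mul_left ?_ (Nat.Coprime.prod_left fun p hp => Nat.Coprime.pow_left _ ?_)
      · exact Nat.Coprime.coprime_dvd_right (dvd_mul_left _ _) (hsc i)
      · exact Nat.Coprime.coprime_dvd_left (Nat.dvd_of_mem_primeFactors hp) (Nat.Coprime.mul_left hac hbc)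
    choose θu hθu' using hθu
    have hδ2 : ((δ : ℤ) : R) * (δ : R) = 1 := by
      have h1 : δ * δ = 1 := by
        rcases hδ with rfl | rfl
        · rfl
        · rfl
      rw [← Int.cast_mul, h1, Int.cast_one]
    refine dvd_det hq.pos hr (Nat.mul_pos (Nat.succ_pos r) hs0) P (numS δ a b Q K (q * (s0 + 1)) (s0 + 1) r n s)
      (u' * ((θu 0 ^ ((r + 1) * (q * (s0 + 1))) : Rˣ) : R)) ((δ : R) * (-(a : R) * (bu⁻¹ : Rˣ)))
      (fun i => ((θu i.succ * (θu 0)⁻¹ : Rˣ) : R)) ?_ ?_ rows ?_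
    · intro i
      have h1 : ((P : ℕ) : R) ∣ ((θu i.succ : Rˣ) : R) - ((θu 0 : Rˣ) : R) := by
        rw [hθu', hθu']
        have h2 : (P : ℤ) ∣ (theta a b Q (n i.succ) (s i.succ) : ℤ) - theta a b Q (n 0) (s 0) := by
          have h3 := (hθ i.succ).symm
          exact (Nat.modEq_iff_dvd.1 h3)
        obtain ⟨y, hy⟩ := h2
        refine ⟨(y : R), ?_⟩
        have h4 := congrArg (fun z : ℤ => (z : R)) hy
        rw [Int.cast_mul, Int.cast_sub, Int.cast_natCast, Int.cast_natCast, Int.cast_natCast] at h4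
        exact h4
      obtain ⟨y, hy⟩ := h1
      refine ⟨y * ((θu 0)⁻¹ : Rˣ), ?_⟩
      have h5 : (((θu 0) : Rˣ) : R) * (((θu 0)⁻¹ : Rˣ) : R) = 1 := Units.mul_inv _
      rw [Units.val_mul]
      calc ((θu i.succ : Rˣ) : R) * (((θu 0)⁻¹ : Rˣ) : R) - 1
          = (((θu i.succ : Rˣ) : R) - ((θu 0 : Rˣ) : R)) * (((θu 0)⁻¹ : Rˣ) : R) := by rw [sub_mul, h5]
        _ = _ := by rw [hy, mul_assoc]
    · obtain ⟨y, hy⟩ := (Int.natCast_dvd_natCast.2 (modulus_pow_dvd (c := g) (Q := Q) (q := q) hg0 hqQ)).trans hg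
      refine ⟨-(δ : R) * (y : R) * ((bu⁻¹ : Rˣ) : R), ?_⟩
      have h5 : ((bu : Rˣ) : R) * ((bu⁻¹ : Rˣ) : R) = 1 := Units.mul_inv _
      have h6 : ((a : R) + (δ : R) * (b : R)) = (P : R) ^ q * (y : R) := by
        have := congrArg (fun z : ℤ => (z : R)) hy
        rw [← hP, Int.cast_add, Int.cast_natCast, Int.cast_mul, Int.cast_natCast, Int.cast_mul, Nat.cast_pow,
          Int.cast_pow, Int.cast_natCast] at this
        exact this
      calc (δ : R) * (-(a : R) * ((bu⁻¹ : Rˣ) : R)) - 1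
          = (δ : R) * (-(a : R) * ((bu⁻¹ : Rˣ) : R)) - ((δ : R) * (δ : R)) * (((bu : Rˣ) : R) * ((bu⁻¹ : Rˣ) : R)) := by
            rw [h5, hδ2, one_mul]
        _ = -(δ : R) * (((a : R) + (δ : R) * (b : R)) * ((bu⁻¹ : Rˣ) : R)) := by rw [hbu']; ring
        _ = _ := by rw [h6]; ring
    · intro c
      unfold numS
      rw [Int.cast_mul, Int.cast_pow, hnum' (rows c) (hrows c)]
      have h1 := prod_shift θu (rows c).1 _ (hrows c).1
      simp only [hθu'] at h1
      rw [h1, mul_pow (δ : R)]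
      ring

end Pool.Agent.Helper81.ZG
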