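import Mathlib
import Pool.Agent.Helper58.ZEU.Explicit
import Pool.Agent.Helper62.ZE.Eps

/-!
# ZG: from the uniform inequality to the explicit form, the form with `ε` and finiteness, one pair `(L, R)` at a time
-/

set_option autoImplicit false

namespace Pool.Agent.Helper81.ZG

open Finset

/-- The explicit inequality for one pair `(L, R)`, with a constant which depends on `D` only. -/
theorem explicit_pt (D : ℕ) : ∃ C : ℝ, 0 < C ∧ ∀ L R : ℝ,
    (∀ B : ℕ, 1 ≤ B → ((B + 1 : ℕ) : ℝ) ^ (D * B) ≤ Real.log L → L ^ B < R) →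
    L ≤ (max 16 R) ^ (C * Real.log (Real.log (Real.log (max 16 R))) / Real.log (Real.log (max 16 R))) := by
  obtain ⟨D', hD'⟩ : ∃ D' : ℕ, D' = D + 1 := ⟨_, rfl⟩
  obtain ⟨Ls, hLs⟩ : ∃ Ls : ℝ, Ls = Real.exp (Real.exp (16 * D' ^ 2 + 16)) := ⟨_, rfl⟩
  have hLs0 : 0 < Ls := by rw [hLs]; exact Real.exp_pos _
  obtain ⟨k0, hk0⟩ : ∃ k0 : ℝ, k0 = Real.log (Real.log (Real.log 16)) := ⟨_, rfl⟩
  have h16 : Real.exp 1 < Real.log 16 := by
    have h1 : Real.log 16 = 4 * Real.log 2 := by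
      rw [show (16 : ℝ) = 2 ^ 4 by norm_num, Real.log_pow]
      norm_num
    rw [h1]
    have h2 := Real.log_two_gt_d9
    have h3 := Real.exp_one_lt_d9
    linarith
  have h16' : 1 < Real.log (Real.log 16) := by
    rw [Real.lt_log_iff_exp_lt ((Real.exp_pos 1).trans h16)]
    exact h16
  have hk00 : 0 < k0 := by rw [hk0]; exact Real.log_pos h16'
  refine ⟨max (8 * D') (|Real.log Ls| / k0), lt_max_of_lt_left (by rw [hD']; positivity), ?_⟩
  intro L R hR
  obtain ⟨N, hN⟩ : ∃ N : ℝ, N = max 16 R := ⟨_, rfl⟩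
  rw [← hN]
  have hNR : (16 : ℝ) ≤ N := by rw [hN]; exact le_max_left _ _
  have hN0 : 0 < N := by linarith
  obtain ⟨n, hn⟩ : ∃ n : ℝ, n = Real.log N := ⟨_, rfl⟩
  obtain ⟨m, hm⟩ : ∃ m : ℝ, m = Real.log n := ⟨_, rfl⟩
  obtain ⟨k, hk⟩ : ∃ k : ℝ, k = Real.log m := ⟨_, rfl⟩
  have hn1 : Real.log 16 ≤ n := by rw [hn]; exact Real.log_le_log (by norm_num) hNR
  have hn0 : 0 < n := lt_of_lt_of_le ((Real.exp_pos 1).trans h16) hn1
  have hm1 : Real.log (Real.log 16) ≤ m := by
    rw [hm]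
    exact Real.log_le_log ((Real.exp_pos 1).trans h16) hn1
  have hm0 : 0 < m := by linarith
  have hk1 : k0 ≤ k := by
    rw [hk0, hk]
    exact Real.log_le_log (by linarith) hm1
  have hmn : m ≤ n := by
    rw [hm]
    exact (Real.log_le_sub_one_of_pos hn0).trans (by linarith)
  have hg : k0 ≤ n * k / m := by
    rw [le_div_iff₀ hm0]
    calc k0 * m ≤ k * n := mul_le_mul hk1 hmn hm0.le (by linarith)
      _ = n * k := mul_comm _ _
  have hg0 : 0 < n * k / m := lt_of_lt_of_le hk00 hg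
  rw [Real.rpow_def_of_pos hN0, ← hn, ← hm, ← hk]
  have he : n * (max (8 * (D' : ℝ)) (|Real.log Ls| / k0) * k / m) =
      max (8 * (D' : ℝ)) (|Real.log Ls| / k0) * (n * k / m) := by ring
  rw [he]
  rcases le_total Ls L with hc | hc
  · have h2 : Real.exp (Real.exp (16 * D' ^ 2 + 16)) ≤ L := by
      rw [hLs] at hc
      exact hc
    have h4 : 0 < L := (Real.exp_pos _).trans_le h2
    have h3 := Pool.Agent.Helper58.ZEU.inversionD (D := D') (N := N) (by omega) h2 (fun B hB hU => by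
      have h5 : ((B + 1 : ℕ) : ℝ) ^ (D * B) ≤ Real.log L := by
        refine le_trans (pow_le_pow_right₀ (by exact_mod_cast (by omega : 1 ≤ B + 1)) ?_) hU
        rw [hD']
        nlinarith
      exact lt_of_lt_of_le (hR B hB h5) (by rw [hN]; exact le_max_right _ _))
    rw [← hn, ← hm, ← hk] at h3
    rw [← Real.log_le_iff_le_exp h4]
    exact h3.trans (mul_le_mul_of_nonneg_right (le_max_left _ _) hg0.le)
  · refine hc.trans ?_
    rw [← Real.log_le_iff_le_exp hLs0]
    calc Real.log Ls ≤ |Real.log Ls| := le_abs_self _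
      _ = |Real.log Ls| / k0 * k0 := by field_simp
      _ ≤ |Real.log Ls| / k0 * (n * k / m) := mul_le_mul_of_nonneg_left hg (by positivity)
      _ ≤ max (8 * (D' : ℝ)) (|Real.log Ls| / k0) * (n * k / m) :=
        mul_le_mul_of_nonneg_right (le_max_right _ _) hg0.le

/-- The form with `ε` for one pair `(L, R)`. -/
theorem eps_pt (C : ℝ) (hC : 0 < C) (ε : ℝ) (hε : 0 < ε) : ∃ K : ℝ, 0 < K ∧ ∀ L R : ℝ, 1 ≤ R →
    L ≤ (max 16 R) ^ (C * Real.log (Real.log (Real.log (max 16 R))) / Real.log (Real.log (max 16 R))) →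
    L ≤ K * R ^ ε := by
  set N0 : ℝ := Real.exp (Real.exp ((2 * C / ε) ^ 2)) with hN0
  have hN00 : 0 < N0 := Real.exp_pos _
  refine ⟨(16 : ℝ) ^ ε + N0 ^ C, by positivity, fun L R hR1 h1 => ?_⟩
  set N : ℝ := max 16 R with hNd
  have hN16 : 16 ≤ N := le_max_left _ _
  have hN1 : 1 ≤ N := by linarith
  have hN16R : N ≤ 16 * R := by
    rw [hNd, max_le_iff]; constructor <;> linarith
  have hRε : 1 ≤ R ^ ε := Real.one_le_rpow hR1 hε.le
  rcases le_total N0 N with h2 | h2
  · have h3 := Pool.Agent.Helper62.ZE.exponent_le C ε N hC hε h2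
    calc L ≤ _ := h1
      _ ≤ N ^ ε := Real.rpow_le_rpow_of_exponent_le hN1 h3
      _ ≤ (16 * R) ^ ε := Real.rpow_le_rpow (by linarith) hN16R hε.le
      _ = 16 ^ ε * R ^ ε := Real.mul_rpow (by norm_num) (by linarith)
      _ ≤ (16 ^ ε + N0 ^ C) * R ^ ε := by
        have : 0 ≤ N0 ^ C * R ^ ε := by positivity
        linarith
  · have h3 := Pool.Agent.Helper62.ZE.exponent_le' C N hC hN16
    calc L ≤ _ := h1
      _ ≤ N ^ C := Real.rpow_le_rpow_of_exponent_le hN1 h3
      _ ≤ N0 ^ C := Real.rpow_le_rpow (by linarith) h2 hC.le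
      _ = N0 ^ C * 1 := by ring
      _ ≤ N0 ^ C * R ^ ε := by gcongr
      _ ≤ (16 ^ ε + N0 ^ C) * R ^ ε := by
        have : 0 ≤ (16 : ℝ) ^ ε * R ^ ε := by positivity
        linarith

/-- Finiteness, for one pair `(c, R)`: a bound for `c`. -/
theorem fin_pt (C : ℝ) (hC : 0 < C) (A : ℝ) : ∃ M : ℕ, ∀ (c : ℕ) (R : ℝ), 0 < c → 1 ≤ R →
    Real.log c ≤
      (max 16 R) ^ (C * Real.log (Real.log (Real.log (max 16 R))) / Real.log (Real.log (max 16 R))) →
    R ≤ (Real.log c) ^ A → c ≤ M := by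
  set A' : ℝ := max A 1 with hA'
  have hA1 : 1 ≤ A' := le_max_right _ _
  obtain ⟨K, hK, h⟩ := eps_pt C hC (1 / (2 * A')) (by positivity)
  refine ⟨⌈Real.exp (max (K ^ 2) 1)⌉₊, ?_⟩
  intro c R hc hR1 h0 hr
  have h1 := h (Real.log c) R hR1 h0
  set L : ℝ := Real.log c with hL
  have hLle : L ≤ max (K ^ 2) 1 := by
    rcases le_total L 1 with h2 | h2
    · exact h2.trans (le_max_right _ _)
    · refine le_trans ?_ (le_max_left _ _)
      have hL0 : 0 < L := by linarith
      have hR0 : 0 ≤ R := by linarith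
      have h3 : R ≤ L ^ A' := hr.trans (Real.rpow_le_rpow_of_exponent_le h2 (le_max_left _ _))
      have h4 : R ^ (1 / (2 * A')) ≤ Real.sqrt L := by
        calc R ^ (1 / (2 * A')) ≤ (L ^ A') ^ (1 / (2 * A')) := Real.rpow_le_rpow hR0 h3 (by positivity)
          _ = L ^ (1 / 2 : ℝ) := by
            rw [← Real.rpow_mul hL0.le]
            congr 1
            field_simp
          _ = Real.sqrt L := (Real.sqrt_eq_rpow L).symm
      have h5 : L ≤ K * Real.sqrt L := h1.trans (mul_le_mul_of_nonneg_left h4 hK.le)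
      have h6 : Real.sqrt L * Real.sqrt L = L := Real.mul_self_sqrt hL0.le
      have h7 : 0 < Real.sqrt L := Real.sqrt_pos.2 hL0
      have h8 : Real.sqrt L ≤ K := by
        by_contra h9
        push Not at h9
        nlinarith
      calc L = Real.sqrt L * Real.sqrt L := h6.symm
        _ ≤ K * K := mul_le_mul h8 h8 h7.le hK.le
        _ = K ^ 2 := by ring
  have h2 : (c : ℝ) ≤ Real.exp (max (K ^ 2) 1) := by
    have hc' : (0 : ℝ) < (c : ℝ) := by exact_mod_cast hc
    rw [← Real.log_le_iff_le_exp hc']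
    exact hLle
  have h3 := h2.trans (Nat.le_ceil _)
  exact_mod_cast h3

end Pool.Agent.Helper81.ZG
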