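import Mathlib
import Pool.Agent.Helper81.ZG.Asm
import Pool.Agent.Helper81.ZG.Gen

/-!
# ZG: every entry of an abc triple may be replaced by a large divisor
-/

set_option autoImplicit false

namespace Pool.Agent.Helper81.ZG

open Finset

theorem bern (h E : ℕ) : h * E + 1 ≤ (E + 1) ^ h := by
  induction h with
  | zero => simp
  | succ n ih =>
    calc (n + 1) * E + 1 ≤ (n * E + 1) * (E + 1) := by nlinarith [Nat.zero_le (n * E * E)]
      _ ≤ (E + 1) ^ n * (E + 1) := Nat.mul_le_mul_right _ ih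
      _ = (E + 1) ^ (n + 1) := (pow_succ _ _).symm

/-- `g` divides one entry of `a + b = c`, and `x`, `y` are the two other entries. -/
theorem uniform_entries (σ : ℝ) (hσ : 0 < σ) : ∃ D : ℕ, ∀ a b c x y g : ℕ, 0 < a → 0 < b → Nat.Coprime a b →
    c = a + b → ((x = a ∧ y = b ∧ g ∣ c) ∨ (x = a ∧ y = c ∧ g ∣ b) ∨ (x = b ∧ y = c ∧ g ∣ a)) →
    (c : ℝ) ^ σ ≤ (g : ℝ) → ∀ E : ℕ, 1 ≤ E → ((E + 1 : ℕ) : ℝ) ^ (D * E) ≤ Real.log (Real.log (c : ℝ)) →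
    (Real.log (c : ℝ)) ^ E < ((∏ p ∈ (x * y * g).primeFactors, p : ℕ) : ℝ) := by
  obtain ⟨D, hD⟩ := main_uniform
  obtain ⟨h, hh⟩ : ∃ h : ℕ, h = ⌈2 / σ⌉₊ := ⟨_, rfl⟩
  have hh1 : 1 ≤ h := by
    rw [hh]
    exact Nat.one_le_iff_ne_zero.2 (Nat.ceil_pos.2 (by positivity)).ne'
  have hhσ : 2 ≤ (h : ℝ) * σ := by
    have h1 : 2 / σ ≤ (h : ℝ) := by rw [hh]; exact Nat.le_ceil _
    rwa [div_le_iff₀ hσ] at h1
  refine ⟨D * h * h, ?_⟩
  intro a b c x y g ha hb hab hc hcase hg E hE hL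
  have hc2 : 2 ≤ c := by omega
  have hcR : (2 : ℝ) ≤ (c : ℝ) := by exact_mod_cast hc2
  have hc0 : (0 : ℝ) < (c : ℝ) := by linarith
  have hlc : 0 < Real.log (c : ℝ) := Real.log_pos (by linarith)
  have hg0 : 0 < g := by
    have : (0 : ℝ) < (g : ℝ) := lt_of_lt_of_le (by positivity) hg
    exact_mod_cast this
  have hlg : σ * Real.log (c : ℝ) ≤ Real.log (g : ℝ) := by
    rw [← Real.log_rpow hc0]
    exact Real.log_le_log (by positivity) hg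
  have hER : (1 : ℝ) ≤ (E : ℝ) := by exact_mod_cast hE
  have hB : 2 * ((E : ℝ) * Real.log (c : ℝ)) ≤ ((h * E : ℕ) : ℝ) * Real.log (g : ℝ) := by
    push_cast
    calc 2 * ((E : ℝ) * Real.log (c : ℝ)) ≤ (h * σ) * ((E : ℝ) * Real.log (c : ℝ)) :=
          mul_le_mul_of_nonneg_right hhσ (by positivity)
      _ = (h : ℝ) * E * (σ * Real.log (c : ℝ)) := by ring
      _ ≤ (h : ℝ) * E * Real.log (g : ℝ) := mul_le_mul_of_nonneg_left hlg (by positivity)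
  have hpow : ((h * E + 1 : ℕ) : ℝ) ^ (D * (h * E)) ≤ ((E + 1 : ℕ) : ℝ) ^ (D * h * h * E) := by
    have h1 : h * E + 1 ≤ (E + 1) ^ h := bern h E
    calc ((h * E + 1 : ℕ) : ℝ) ^ (D * (h * E)) ≤ (((E + 1) ^ h : ℕ) : ℝ) ^ (D * (h * E)) :=
          pow_le_pow_left₀ (by positivity) (by exact_mod_cast h1) _
      _ = ((E + 1 : ℕ) : ℝ) ^ (D * h * h * E) := by
        rw [Nat.cast_pow, ← pow_mul]
        congr 1
        ring
  -- the general step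
  have key : ∀ (u v : ℕ) (δ : ℤ), (δ = 1 ∨ δ = -1) → 0 < u → 0 < v → Nat.Coprime u v → (g : ℤ) ∣ (u : ℤ) + δ * v →
      c ≤ u + v → u + v ≤ c * c → g ≤ u + v →
      (Real.log (c : ℝ)) ^ E < ((∏ p ∈ (u * v * g).primeFactors, p : ℕ) : ℝ) := by
    intro u v δ hδ hu hv huv hdvd h1 h2 h3
    have h4 : Real.log (c : ℝ) ≤ Real.log ((u + v : ℕ) : ℝ) :=
      Real.log_le_log hc0 (by exact_mod_cast h1)
    have h5 : Real.log ((u + v : ℕ) : ℝ) ≤ 2 * Real.log (c : ℝ) := by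
      have h6 : Real.log ((u + v : ℕ) : ℝ) ≤ Real.log (((c * c : ℕ)) : ℝ) :=
        Real.log_le_log (by exact_mod_cast (by omega : 0 < u + v)) (by exact_mod_cast h2)
      rw [Nat.cast_mul, Real.log_mul hc0.ne' hc0.ne'] at h6
      linarith
    have h7 : (E : ℝ) * Real.log ((u + v : ℕ) : ℝ) ≤ ((h * E : ℕ) : ℝ) * Real.log (g : ℝ) := by
      calc (E : ℝ) * Real.log ((u + v : ℕ) : ℝ) ≤ E * (2 * Real.log (c : ℝ)) :=
            mul_le_mul_of_nonneg_left h5 (by positivity)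
        _ = 2 * ((E : ℝ) * Real.log (c : ℝ)) := by ring
        _ ≤ _ := hB
    have h8 : Real.log (Real.log (c : ℝ)) ≤ Real.log (Real.log ((u + v : ℕ) : ℝ)) :=
      Real.log_le_log hlc h4
    have h9 := hD E (h * E) u v g δ hδ hE (Nat.le_mul_of_pos_left E (by omega)) hu hv huv hg0.ne' h3 hdvd h7
      (hpow.trans (hL.trans h8))
    exact lt_of_le_of_lt (pow_le_pow_left₀ hlc.le h4 E) h9
  have hcc : 2 * c ≤ c * c := Nat.mul_le_mul_right c hc2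
  rcases hcase with ⟨hx, hy, hgd⟩ | ⟨hx, hy, hgd⟩ | ⟨hx, hy, hgd⟩
  · subst hx hy
    refine key x y 1 (Or.inl rfl) ha hb hab ?_ (by omega) (by omega) ?_
    · rw [one_mul, ← Nat.cast_add, ← hc]
      exact_mod_cast hgd
    · rw [← hc]
      exact Nat.le_of_dvd (by omega) hgd
  · subst hx hy
    have h1 := key y x (-1) (Or.inr rfl) (by omega) ha
      (by rw [hc]; simpa using hab.symm) ?_ (by omega) (by omega) ?_
    · rwa [mul_comm y x] at h1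
    · have h2 : (y : ℤ) + (-1) * x = (b : ℤ) := by rw [hc]; push_cast; ring
      rw [h2]
      exact_mod_cast hgd
    · have := Nat.le_of_dvd hb hgd
      omega
  · subst hx hy
    have h1 := key y x (-1) (Or.inr rfl) (by omega) hb
      (by rw [hc]; simpa using hab) ?_ (by omega) (by omega) ?_
    · rwa [mul_comm y x] at h1
    · have h2 : (y : ℤ) + (-1) * x = (a : ℤ) := by rw [hc]; push_cast; ring
      rw [h2]
      exact_mod_cast hgd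
    · have := Nat.le_of_dvd ha hgd
      omega

/-- The radical of a natural number is at least `1`. -/
theorem one_le_rad (n : ℕ) : (1 : ℝ) ≤ ((∏ p ∈ n.primeFactors, p : ℕ) : ℝ) := by
  have : 0 < (∏ p ∈ n.primeFactors, p : ℕ) :=
    Finset.prod_pos fun p hp => (Nat.prime_of_mem_primeFactors hp).pos
  exact_mod_cast this

/-- The three forms for divisors of an entry. -/
theorem divisor_forms (σ : ℝ) (hσ : 0 < σ) :
    (∃ C : ℝ, 0 < C ∧ ∀ a b c x y g : ℕ, 0 < a → 0 < b → Nat.Coprime a b → c = a + b →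
      ((x = a ∧ y = b ∧ g ∣ c) ∨ (x = a ∧ y = c ∧ g ∣ b) ∨ (x = b ∧ y = c ∧ g ∣ a)) → (c : ℝ) ^ σ ≤ (g : ℝ) →
      ∀ N : ℝ, N = max 16 ((∏ p ∈ (x * y * g).primeFactors, p : ℕ) : ℝ) →
      Real.log (c : ℝ) ≤ N ^ (C * Real.log (Real.log (Real.log N)) / Real.log (Real.log N))) ∧
    (∀ ε : ℝ, 0 < ε → ∃ K : ℝ, 0 < K ∧ ∀ a b c x y g : ℕ, 0 < a → 0 < b → Nat.Coprime a b → c = a + b →
      ((x = a ∧ y = b ∧ g ∣ c) ∨ (x = a ∧ y = c ∧ g ∣ b) ∨ (x = b ∧ y = c ∧ g ∣ a)) → (c : ℝ) ^ σ ≤ (g : ℝ) →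
      Real.log (c : ℝ) ≤ K * ((∏ p ∈ (x * y * g).primeFactors, p : ℕ) : ℝ) ^ ε) ∧
    ∀ A : ℝ, {t : ℕ × ℕ | 0 < t.1 ∧ 0 < t.2 ∧ Nat.Coprime t.1 t.2 ∧ ∃ c x y g : ℕ, c = t.1 + t.2 ∧
      ((x = t.1 ∧ y = t.2 ∧ g ∣ c) ∨ (x = t.1 ∧ y = c ∧ g ∣ t.2) ∨ (x = t.2 ∧ y = c ∧ g ∣ t.1)) ∧
      (c : ℝ) ^ σ ≤ (g : ℝ) ∧
      ((∏ p ∈ (x * y * g).primeFactors, p : ℕ) : ℝ) ≤ Real.log (c : ℝ) ^ A}.Finite := by
  obtain ⟨D, hD⟩ := uniform_entries σ hσ
  obtain ⟨C, hC, h⟩ := explicit_pt D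
  have hexp : ∀ a b c x y g : ℕ, 0 < a → 0 < b → Nat.Coprime a b → c = a + b →
      ((x = a ∧ y = b ∧ g ∣ c) ∨ (x = a ∧ y = c ∧ g ∣ b) ∨ (x = b ∧ y = c ∧ g ∣ a)) → (c : ℝ) ^ σ ≤ (g : ℝ) →
      Real.log (c : ℝ) ≤ (max 16 ((∏ p ∈ (x * y * g).primeFactors, p : ℕ) : ℝ)) ^
        (C * Real.log (Real.log (Real.log (max 16 ((∏ p ∈ (x * y * g).primeFactors, p : ℕ) : ℝ)))) /
          Real.log (Real.log (max 16 ((∏ p ∈ (x * y * g).primeFactors, p : ℕ) : ℝ)))) :=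
    fun a b c x y g ha hb hab hc hcase hg =>
      h _ _ (fun B hB hL => hD a b c x y g ha hb hab hc hcase hg B hB hL)
  refine ⟨⟨C, hC, ?_⟩, ?_, ?_⟩
  · intro a b c x y g ha hb hab hc hcase hg N hN
    rw [hN]
    exact hexp a b c x y g ha hb hab hc hcase hg
  · intro ε hε
    obtain ⟨K, hK, hKe⟩ := eps_pt C hC ε hε
    exact ⟨K, hK, fun a b c x y g ha hb hab hc hcase hg =>
      hKe _ _ (one_le_rad _) (hexp a b c x y g ha hb hab hc hcase hg)⟩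
  · intro A
    obtain ⟨M, hM⟩ := fin_pt C hC A
    refine (((Finset.range (M + 1)) ×ˢ (Finset.range (M + 1))).finite_toSet).subset ?_
    rintro ⟨a, b⟩ ⟨ha, hb, hab, c, x, y, g, hc, hcase, hg, hr⟩
    simp only at ha hb hab hc hcase
    have h1 := hM c _ (by omega) (one_le_rad _) (hexp a b c x y g ha hb hab hc hcase hg) hr
    simp only [Finset.coe_product, Finset.coe_range, Set.mem_prod, Set.mem_Iio]
    constructor <;> omega

end Pool.Agent.Helper81.ZG
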