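import Mathlib
import Pool.Agent.Helper81.ZG.Final

/-!
# Every abc triple: the radical is above every power of `log c`, also if one entry is replaced by a divisor
-/

set_option autoImplicit false

namespace Pool.Agent.Helper81.ZG.Draft

/-- There is `C > 0` such that all coprime positive integers `a`, `b` satisfy, with `c = a + b` and `N` the maximum of
`16` and the product of the distinct primes of `a b c`, `log c ≤ N ^ (C log log log N / log log N)`. For every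
`ε > 0` there is `K` such that `log c` is at most `K` times the power `ε` of that product. For every real `A` the
product is at most `(log c) ^ A` for finitely many pairs only. For every `σ > 0` the same holds (with constants
which depend on `σ`) for the product of the distinct primes of `x y g`, where `x`, `y` are two of the entries
`a`, `b`, `c` and `g ≥ c ^ σ` is a divisor of the third one. -/
theorem result :
    (∃ C : ℝ, 0 < C ∧ ∀ a b : ℕ, 0 < a → 0 < b → Nat.Coprime a b → ∀ N : ℝ,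
      N = max 16 ((∏ p ∈ (a * b * (a + b)).primeFactors, p : ℕ) : ℝ) →
      Real.log ((a + b : ℕ) : ℝ) ≤
        N ^ (C * Real.log (Real.log (Real.log N)) / Real.log (Real.log N))) ∧
    (∀ ε : ℝ, 0 < ε → ∃ K : ℝ, 0 < K ∧ ∀ a b : ℕ, 0 < a → 0 < b → Nat.Coprime a b →
      Real.log ((a + b : ℕ) : ℝ) ≤ K * ((∏ p ∈ (a * b * (a + b)).primeFactors, p : ℕ) : ℝ) ^ ε) ∧
    (∀ A : ℝ, {x : ℕ × ℕ | 0 < x.1 ∧ 0 < x.2 ∧ Nat.Coprime x.1 x.2 ∧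
      ((∏ p ∈ (x.1 * x.2 * (x.1 + x.2)).primeFactors, p : ℕ) : ℝ) ≤
        Real.log ((x.1 + x.2 : ℕ) : ℝ) ^ A}.Finite) ∧
    ∀ σ : ℝ, 0 < σ →
      (∃ C : ℝ, 0 < C ∧ ∀ a b c x y g : ℕ, 0 < a → 0 < b → Nat.Coprime a b → c = a + b →
        ((x = a ∧ y = b ∧ g ∣ c) ∨ (x = a ∧ y = c ∧ g ∣ b) ∨ (x = b ∧ y = c ∧ g ∣ a)) → (c : ℝ) ^ σ ≤ (g : ℝ) →
        ∀ N : ℝ, N = max 16 ((∏ p ∈ (x * y * g).primeFactors, p : ℕ) : ℝ) →
        Real.log (c : ℝ) ≤ N ^ (C * Real.log (Real.log (Real.log N)) / Real.log (Real.log N))) ∧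
      (∀ ε : ℝ, 0 < ε → ∃ K : ℝ, 0 < K ∧ ∀ a b c x y g : ℕ, 0 < a → 0 < b → Nat.Coprime a b → c = a + b →
        ((x = a ∧ y = b ∧ g ∣ c) ∨ (x = a ∧ y = c ∧ g ∣ b) ∨ (x = b ∧ y = c ∧ g ∣ a)) → (c : ℝ) ^ σ ≤ (g : ℝ) →
        Real.log (c : ℝ) ≤ K * ((∏ p ∈ (x * y * g).primeFactors, p : ℕ) : ℝ) ^ ε) ∧
      ∀ A : ℝ, {t : ℕ × ℕ | 0 < t.1 ∧ 0 < t.2 ∧ Nat.Coprime t.1 t.2 ∧ ∃ c x y g : ℕ, c = t.1 + t.2 ∧
        ((x = t.1 ∧ y = t.2 ∧ g ∣ c) ∨ (x = t.1 ∧ y = c ∧ g ∣ t.2) ∨ (x = t.2 ∧ y = c ∧ g ∣ t.1)) ∧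
        (c : ℝ) ^ σ ≤ (g : ℝ) ∧
        ((∏ p ∈ (x * y * g).primeFactors, p : ℕ) : ℝ) ≤ Real.log (c : ℝ) ^ A}.Finite := by
  have h := fun (σ : ℝ) (hσ : 0 < σ) => Pool.Agent.Helper81.ZG.divisor_forms σ hσ
  obtain ⟨⟨C, hC, h1⟩, h2, h3⟩ := h 1 one_pos
  have hp : ∀ a b : ℕ, ((a + b : ℕ) : ℝ) ^ (1 : ℝ) ≤ ((a + b : ℕ) : ℝ) := fun a b => (Real.rpow_one _).le
  refine ⟨⟨C, hC, ?_⟩, ?_, ?_, h⟩
  · intro a b ha hb hab N hN
    exact h1 a b (a + b) a b (a + b) ha hb hab rfl (Or.inl ⟨rfl, rfl, dvd_rfl⟩) (hp a b) N hN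
  · intro ε hε
    obtain ⟨K, hK, hKe⟩ := h2 ε hε
    exact ⟨K, hK, fun a b ha hb hab =>
      hKe a b (a + b) a b (a + b) ha hb hab rfl (Or.inl ⟨rfl, rfl, dvd_rfl⟩) (hp a b)⟩
  · intro A
    refine (h3 A).subset ?_
    rintro ⟨a, b⟩ ⟨ha, hb, hab, hr⟩
    exact ⟨ha, hb, hab, a + b, a, b, a + b, rfl, Or.inl ⟨rfl, rfl, dvd_rfl⟩, hp a b, hr⟩

end Pool.Agent.Helper81.ZG.Draft
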