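import Pool.Agent.Helper12.ZE.Zero

/-!
# ZG: the zero estimate of ZE modulo a prime `q` when `κ = 1` is allowed

Copies of `core_char`, `core`, `class_lemma` of Helper12/ZE/Zero.lean; the hypothesis `κ ≠ 1` is replaced by
`κ ≠ 1 ∨ ∃ i, ρ i ≠ 1`.
-/

open Finset Pool.Agent.Helper12.ZE

namespace Pool.Agent.Helper81.ZG

section core

variable {q : ℕ} [Fact q.Prime] {r s : ℕ}

/-- The character part. -/
theorem core_char (hsq : s < q) (g : Fin (r + 1) → ℤ) (hg : ∑ k, g k = 1)
    (P : MvPolynomial (Fin (r + 1)) (ZMod q)) (hP : P.totalDegree < s)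
    (d : ZMod q) (hd : d ≠ 0) (ρ : Fin r → ZMod q) (hρ : ∀ i, ρ i ≠ 0)
    (κ : ZMod q) (hκ : κ ≠ 0) (hκ1 : κ ≠ 1 ∨ ∃ i, ρ i ≠ 1)
    (H : ∀ k : Fin (r + 1), ∃ b : Fin (r + 1) → ℤ, ∀ m : ℕ, m ≤ s →
      ∃ (e : Fin r → ℕ) (f : ℕ),
        (∀ i, (e i : ℤ) = (b i.succ + (Pi.single k m : Fin (r + 1) → ℕ) i.succ)
          - (b i.castSucc + (Pi.single k m : Fin (r + 1) → ℕ) i.castSucc)) ∧
        ((f : ℤ) = -∑ k', g k' * (b k' + (Pi.single k m : Fin (r + 1) → ℕ) k')) ∧
        MvPolynomial.eval (fun k' => ((b k' + (Pi.single k m : Fin (r + 1) → ℕ) k' : ℤ) : ZMod q)) P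
          + d * ((∏ i, ρ i ^ e i) * κ ^ f) = 0) : False := by
  classical
  -- characters of the moves
  set w : Fin (r + 1) → ZMod q := fun k =>
    (∏ i : Fin r, ρ i ^ ((if k = i.succ then 1 else 0) - (if k = i.castSucc then 1 else 0) : ℤ))
      * κ ^ (-g k) with hw
  have hwprod : ∏ k, w k = κ⁻¹ := by
    have h1 : ∏ k : Fin (r + 1), ∏ i : Fin r,
        ρ i ^ ((if k = i.succ then 1 else 0) - (if k = i.castSucc then 1 else 0) : ℤ) = 1 := by
      rw [Finset.prod_comm]
      refine Finset.prod_eq_one fun i _ => ?_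
      rw [prod_zpow_sum (ρ i) (hρ i)]
      simp
    have h2 : ∏ k : Fin (r + 1), κ ^ (-g k) = κ⁻¹ := by
      rw [prod_zpow_sum κ hκ, Finset.sum_neg_distrib, hg, zpow_neg_one]
    rw [hw]
    simp only [Finset.prod_mul_distrib]
    rw [h1, h2, one_mul]
  obtain ⟨k, hk⟩ : ∃ k, w k ≠ 1 := by
    by_contra hall
    push Not at hall
    have hκeq : κ = 1 := by
      have : ∏ k, w k = 1 := Finset.prod_eq_one fun k _ => hall k
      rw [hwprod] at this
      exact inv_eq_one.1 this
    have hall1 : ∀ (m : ℕ) (i : Fin r), i.val = m → ρ i = 1 := by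
      intro m
      induction m using Nat.strong_induction_on with
      | _ m ih =>
        intro i hi
        have h1 := hall i.castSucc
        simp only [hw] at h1
        rw [hκeq, one_zpow, mul_one, Finset.prod_eq_single i] at h1
        · rw [if_neg (by rw [Fin.ext_iff, Fin.val_castSucc, Fin.val_succ]; omega), if_pos rfl, zero_sub,
            zpow_neg_one, inv_eq_one] at h1
          exact h1
        · intro i' _ hii
          rw [if_neg (fun h => hii (Fin.castSucc_injective _ h).symm), sub_zero]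
          by_cases h2 : i.castSucc = i'.succ
          · rw [ih i'.val (by
              have h3 := congrArg Fin.val h2
              rw [Fin.val_castSucc, Fin.val_succ] at h3
              omega) i' rfl, one_zpow]
          · rw [if_neg h2, zpow_zero]
        · intro h
          exact absurd (mem_univ i) h
    rcases hκ1 with h | ⟨i, hi⟩
    · exact h hκeq
    · exact hi (hall1 i.val i rfl)
  obtain ⟨b, hb⟩ := H k
  -- the value of the character along the line
  set χ0 : ZMod q := (∏ i : Fin r, ρ i ^ (b i.succ - b i.castSucc)) * κ ^ (-∑ k', g k' * b k')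
    with hχ0
  have hχ0' : χ0 ≠ 0 := by
    rw [hχ0]
    refine mul_ne_zero (Finset.prod_ne_zero_iff.2 fun i _ => zpow_ne_zero _ (hρ i))
      (zpow_ne_zero _ hκ)
  have hw0 : w k ≠ 0 := by
    rw [hw]
    exact mul_ne_zero (Finset.prod_ne_zero_iff.2 fun i _ => zpow_ne_zero _ (hρ i))
      (zpow_ne_zero _ hκ)
  set Q : Polynomial (ZMod q) := MvPolynomial.aeval
    (fun k' => Polynomial.C ((b k' : ℤ) : ZMod q) + if k' = k then Polynomial.X else 0) P with hQ
  have hQdeg : Q.natDegree < s := by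
    refine lt_of_le_of_lt (MvPolynomial.aeval_natDegree_le P le_rfl _ (n := 1) fun k' => ?_) ?_
    · split_ifs
      · refine (Polynomial.natDegree_add_le _ _).trans ?_
        simp
      · simp
    · omega
  have hval : ∀ m : ℕ, m ≤ s → Q.eval (m : ZMod q) = -(d * χ0 * w k ^ m) := by
    intro m hm
    obtain ⟨e, f, he, hf, hz⟩ := hb m hm
    have h1 : Q.eval (m : ZMod q) = MvPolynomial.eval
        (fun k' => ((b k' + (Pi.single k m : Fin (r + 1) → ℕ) k' : ℤ) : ZMod q)) P := by
      rw [hQ, MvPolynomial.aeval_def, ← Polynomial.coe_evalRingHom, MvPolynomial.hom_eval₂]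
      rw [MvPolynomial.eval, MvPolynomial.coe_eval₂Hom]
      congr 1
      · ext x
        simp
      · funext k'
        by_cases hkk : k' = k
        · subst hkk
          simp
        · simp [hkk, Pi.single_eq_of_ne hkk]
    have h2 : (∏ i, ρ i ^ e i) * κ ^ f = χ0 * w k ^ m := by
      have e1 : ∀ i, ρ i ^ e i = ρ i ^ (b i.succ - b i.castSucc) *
          (ρ i ^ ((if k = i.succ then 1 else 0) - (if k = i.castSucc then 1 else 0) : ℤ)) ^ m := by
        intro i
        rw [← zpow_natCast, he i, ← zpow_natCast, ← zpow_mul, ← zpow_add₀ (hρ i)]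
        congr 1
        simp only [Pi.single_apply, @eq_comm _ k]
        split_ifs <;> push_cast <;> ring
      have e2 : κ ^ f = κ ^ (-∑ k', g k' * b k') * (κ ^ (-g k)) ^ m := by
        have e3 : ∑ k', g k' * (((Pi.single k m : Fin (r + 1) → ℕ) k' : ℕ) : ℤ) = g k * m := by
          rw [Finset.sum_eq_single k]
          · simp
          · intro k' _ hkk
            simp [Pi.single_eq_of_ne hkk]
          · intro h
            exact absurd (mem_univ k) h
        rw [← zpow_natCast κ f, hf, ← zpow_natCast (κ ^ (-g k)), ← zpow_mul, ← zpow_add₀ hκ]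
        congr 1
        simp only [mul_add, Finset.sum_add_distrib]
        rw [e3]
        ring
      rw [e2, Finset.prod_congr rfl fun i _ => e1 i, Finset.prod_mul_distrib, Finset.prod_pow,
        hχ0, hw]
      simp only [mul_pow]
      ring
    rw [h1]
    rw [h2] at hz
    linear_combination hz
  have hdiff := congr_fun (Polynomial.fwdDiff_iter_eq_zero_of_degree_lt hQdeg) 0
  rw [fwdDiff_iter_eq_sum_shift, Pi.zero_apply] at hdiff
  have hsum : ∑ m ∈ Finset.range (s + 1), ((-1 : ℤ) ^ (s - m) * s.choose m) •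
      Polynomial.eval (0 + m • (1 : ZMod q)) Q = -(d * χ0 * (w k - 1) ^ s) := by
    rw [sub_eq_add_neg, add_pow, Finset.mul_sum, ← Finset.sum_neg_distrib]
    refine Finset.sum_congr rfl fun m hm => ?_
    have hm' : m ≤ s := by
      have := Finset.mem_range.1 hm
      omega
    rw [zero_add, nsmul_eq_mul, mul_one, hval m hm', zsmul_eq_mul]
    push_cast
    ring
  rw [hsum] at hdiff
  rw [neg_eq_zero] at hdiff
  exact absurd hdiff (mul_ne_zero (mul_ne_zero hd hχ0') (pow_ne_zero _ (sub_ne_zero.2 hk)))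

/-- CORE of the zero estimate. -/
theorem core (hsq : s < q) (hs : 0 < s) (g : Fin (r + 1) → ℤ) (hg : ∑ k, g k = 1)
    (J : Finset ((Fin r → ℕ) × ℕ)) (hJ : ∀ p ∈ J, ∑ i, p.1 i + p.2 < s)
    (co : (Fin r → ℕ) × ℕ → ZMod q) (d : ZMod q) (ρ : Fin r → ZMod q) (hρ : ∀ i, ρ i ≠ 0)
    (κ : ZMod q) (hκ : κ ≠ 0) (hκ1 : κ ≠ 1 ∨ ∃ i, ρ i ≠ 1)
    (H : ∀ γ : Fin (r + 1) → ℕ, ∑ k, γ k ≤ s → ∃ (e0 : Fin r → ℤ) (f0 : ℤ),
      ∀ m : Fin (r + 1) → ℕ, (∀ k, m k ≤ γ k) → ∃ (e : Fin r → ℕ) (f : ℕ),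
        (∀ i, (e i : ℤ) = e0 i + (m i.succ : ℤ) - m i.castSucc) ∧
        ((f : ℤ) = f0 - ∑ k, g k * m k) ∧
        ∑ p ∈ J, co p * ((∏ i, (((e i).choose (p.1 i) : ℕ) : ZMod q)) *
          ((f.choose p.2 : ℕ) : ZMod q)) + d * ((∏ i, ρ i ^ e i) * κ ^ f) = 0) :
    d = 0 ∧ ∀ p ∈ J, co p = 0 := by
  classical
  -- rewritten with the base point in the coordinates of the moves
  have H' : ∀ γ : Fin (r + 1) → ℕ, ∑ k, γ k ≤ s → ∃ b : Fin (r + 1) → ℤ,
      ∀ m : Fin (r + 1) → ℕ, (∀ k, m k ≤ γ k) → ∃ (e : Fin r → ℕ) (f : ℕ),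
        (∀ i, (e i : ℤ) = (b i.succ + m i.succ) - (b i.castSucc + m i.castSucc)) ∧
        ((f : ℤ) = -∑ k, g k * (b k + m k)) ∧
        MvPolynomial.eval (fun k => ((b k + m k : ℤ) : ZMod q)) (pol g J co)
          + d * ((∏ i, ρ i ^ e i) * κ ^ f) = 0 := by
    intro γ hγ
    obtain ⟨e0, f0, h⟩ := H γ hγ
    obtain ⟨b, hb, hbf⟩ := solve g hg e0 f0
    refine ⟨b, fun m hm => ?_⟩
    obtain ⟨e, f, he, hf, hsum⟩ := h m hm
    have he' : ∀ i, (e i : ℤ) = (b i.succ + m i.succ) - (b i.castSucc + m i.castSucc) := by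
      intro i
      rw [he i, ← hb i]
      ring
    have hf' : (f : ℤ) = -∑ k, g k * (b k + m k) := by
      rw [hf, ← hbf]
      simp only [mul_add, Finset.sum_add_distrib]
      ring
    refine ⟨e, f, he', hf', ?_⟩
    rw [pol_eval g J co hsq hJ (fun k => b k + m k) e f he' hf']
    exact hsum
  have hdeg := pol_totalDegree g J co hs hJ
  -- part (i)
  have hd : d = 0 := by
    by_contra hd
    exact core_char hsq g hg (pol g J co) hdeg d hd ρ hρ κ hκ hκ1 fun k => by
      obtain ⟨b, hb⟩ := H' (Pi.single k s) (by simp)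
      refine ⟨b, fun m hm => ?_⟩
      obtain ⟨e, f, he, hf, hz⟩ := hb (Pi.single k m) (fun k' => by
        by_cases h : k' = k
        · subst h
          simpa using hm
        · simp [Pi.single_eq_of_ne h])
      exact ⟨e, f, he, hf, hz⟩
  refine ⟨hd, ?_⟩
  -- part (ii)
  by_contra hne
  push Not at hne
  have hP := pol_ne_zero g hg J co hsq hJ hne
  obtain ⟨t, ht, htd⟩ : ∃ t ∈ (pol g J co).support, (pol g J co).totalDegree = t.degree := by
    obtain ⟨t, ht, htd⟩ := Finset.exists_mem_eq_sup (pol g J co).support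
      (MvPolynomial.support_nonempty.2 hP) (fun t => t.sum fun _ e => e)
    exact ⟨t, ht, htd⟩
  have htsum : ∑ k, t k = t.degree := by
    rw [Finsupp.degree_eq_sum]
  obtain ⟨b, hb⟩ := H' t (by rw [htsum]; omega)
  obtain ⟨x, hx, hx0⟩ := MvPolynomial.combinatorial_nullstellensatz_exists_eval_nonzero
    (pol g J co) t (MvPolynomial.mem_support_iff.1 ht) htd
    (fun k => (Finset.range (t k + 1)).image fun m : ℕ => ((b k + m : ℤ) : ZMod q))
    (fun k => by
      rw [Finset.card_image_of_injOn, Finset.card_range]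
      · omega
      · intro m1 h1 m2 h2 h12
        have hk : t k ≤ ∑ k, t k := Finset.single_le_sum (fun _ _ => Nat.zero_le _) (mem_univ k)
        simp only [Finset.coe_range, Set.mem_Iio] at h1 h2
        simp only [Int.cast_add, Int.cast_natCast, add_right_inj] at h12
        rw [ZMod.natCast_eq_natCast_iff'] at h12
        rwa [Nat.mod_eq_of_lt (by omega), Nat.mod_eq_of_lt (by omega)] at h12)
  simp only [Finset.mem_image, Finset.mem_range] at hx
  choose m hm hmx using hx
  obtain ⟨e, f, he, hf, hz⟩ := hb m (fun k => by have := hm k; omega)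
  rw [hd, zero_mul, add_zero] at hz
  apply hx0
  rw [← hz]
  congr 1
  congr 1
  funext k
  exact (hmx k).symm

/-- The class lemma in the cyclic numbering of note 2789 (statement of helper17): index `0` is
the move `v_0`, index `i.succ` is the move `v_(i+1)`. -/
theorem class_lemma (r s : ℕ) (hs0 : 0 < s) (hs : s < q) (g : Fin (r + 1) → ℤ)
    (hg : ∑ i, g i = -1) (J : Finset ((Fin r → ℕ) × ℕ))
    (hJ : ∀ p ∈ J, (∑ i, p.1 i) + p.2 < s) (cc : (Fin r → ℕ) × ℕ → ZMod q) (dd : ZMod q)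
    (rho : Fin r → ZMod q) (hrho : ∀ i, rho i ≠ 0) (kap : ZMod q) (hk0 : kap ≠ 0)
    (hk1 : kap ≠ 1 ∨ ∃ i, rho i ≠ 1)
    (H : ∀ gam : Fin (r + 1) → ℕ, ∑ i, gam i ≤ s → ∃ f0 : ℤ, ∀ m : Fin (r + 1) → ℕ,
      (∀ i, m i ≤ gam i) → ∃ (x : Fin r → ℕ) (f : ℕ),
        (∀ i : Fin r, (x i : ℤ) = gam i.succ + m (i.succ + 1) - m i.succ) ∧
        (f : ℤ) = f0 + ∑ i, (m i : ℤ) * g i ∧
        (∑ p ∈ J, cc p * (∏ i, ((x i).choose (p.1 i) : ZMod q)) * (f.choose p.2 : ZMod q))
          + dd * (∏ i, rho i ^ x i) * kap ^ f = 0) :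
    (∀ p ∈ J, cc p = 0) ∧ dd = 0 := by
  have hbij : Function.Bijective fun k : Fin (r + 1) => k + 1 :=
    (Equiv.addRight (1 : Fin (r + 1))).bijective
  have hc := core (q := q) hs hs0 (fun k => -g (k + 1)) (by
    rw [Finset.sum_neg_distrib, Function.Bijective.sum_comp hbij (fun k => g k), hg, neg_neg])
    J hJ cc dd rho hrho kap hk0 hk1 (by
      intro γ hγ
      obtain ⟨f0, hf0⟩ := H (fun k => γ (k - 1)) (by
        have hbij' : Function.Bijective fun k : Fin (r + 1) => k - 1 :=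
          (Equiv.subRight (1 : Fin (r + 1))).bijective
        rw [Function.Bijective.sum_comp hbij' (fun k => γ k)]
        exact hγ)
      refine ⟨fun i => (γ i.castSucc : ℤ), f0, fun m hm => ?_⟩
      obtain ⟨x, f, hx, hf, hsum⟩ := hf0 (fun k => m (k - 1)) (fun k => hm _)
      refine ⟨x, f, fun i => ?_, ?_, ?_⟩
      · have e1 : i.succ - 1 = i.castSucc := by
          rw [sub_eq_iff_eq_add, Fin.coeSucc_eq_succ]
        rw [hx i, e1]
        simp only [add_sub_cancel_right]
      · rw [hf]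
        rw [← Function.Bijective.sum_comp hbij (fun k => ((m (k - 1) : ℕ) : ℤ) * g k)]
        simp only [add_sub_cancel_right]
        rw [sub_eq_add_neg, ← Finset.sum_neg_distrib]
        congr 1
        refine Finset.sum_congr rfl fun k _ => ?_
        ring
      · rw [← hsum]
        congr 1
        · refine Finset.sum_congr rfl fun p _ => ?_
          ring
        · ring)
  exact ⟨hc.2, hc.1⟩

end core

end Pool.Agent.Helper81.ZG
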